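import Mathlib
import Pool.Agent.Helper54K9.Mono.Approx

/-!
# Circuits with few negations

A circuit with at most `t` NOT gates gives `2 ^ (t + 1)` monotone circuits; if it rejects `S` and
accepts `S' ⊇ S` then so does one of them.
-/

set_option autoImplicit false
set_option linter.unusedSectionVars false
set_option linter.unusedDecidableInType false

namespace Pool.Agent.Helper90K9.NG

open Finset Helper54K9.Mono

variable {V : Type*} [DecidableEq V]

/-- A circuit with negations: as `Circuit`, but the gates at the positions in `neg` are negations: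
such a gate is `0` if its argument (a constant, an input variable or an earlier gate) is positive and
`1` otherwise. -/
structure NegCircuit (κ : ℕ) (U : Set V) where
  /-- the number of gates, including the negations -/
  size : ℕ
  /-- the functions computed by the gates -/
  gate : ℕ → Finset V → ℝ
  /-- the positions of the negations -/
  neg : Finset ℕ
  isGate : ∀ i < size, i ∉ neg → Gate κ (Avail U gate i) (gate i)
  isNeg : ∀ i < size, i ∈ neg → ∃ u, Avail U gate i u ∧
    gate i = fun S => if 0 < u S then 0 else 1
  /-- the output -/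
  out : Finset V → ℝ
  isOut : Avail U gate size out

/-- the circuit accepts the set if the output is positive -/
def NegCircuit.Accepts {κ : ℕ} {U : Set V} (C : NegCircuit κ U) (S : Finset V) : Prop :=
  0 < C.out S

theorem Avail.congr {U : Set V} {g g' : ℕ → Finset V → ℝ} {i : ℕ} (h : ∀ j < i, g j = g' j)
    {u : Finset V → ℝ} (hu : Avail U g i u) : Avail U g' i u := by
  cases hu with
  | const c => exact Avail.const c
  | input v hv => exact Avail.input v hv
  | gate j hj => rw [h j hj]; exact Avail.gate j hj

theorem Gate.imp {κ : ℕ} {A A' : (Finset V → ℝ) → Prop} (h : ∀ u, A u → A' u)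
    {f : Finset V → ℝ} (hf : Gate κ A f) : Gate κ A' f := by
  cases hf with
  | max k u hu => exact Gate.max k u fun j => h _ (hu j)
  | min k u hu => exact Gate.min k u fun j => h _ (hu j)
  | mono φ hφ u hu => exact Gate.mono φ hφ u fun j => h _ (hu j)

/-- transfer of a gate to functions which agree on some sets -/
theorem Gate.transfer {κ : ℕ} {A A' : (Finset V → ℝ) → Prop} (Q : Set (Finset V))
    (h : ∀ u, A u → ∃ u', A' u' ∧ ∀ S ∈ Q, u' S = u S) {f : Finset V → ℝ}
    (hf : Gate κ A f) : ∃ f', Gate κ A' f' ∧ ∀ S ∈ Q, f' S = f S := by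
  cases hf with
  | max k u hu =>
    choose u' h1 h2 using fun j => h _ (hu j)
    refine ⟨_, Gate.max k u' h1, fun S hS => ?_⟩
    simp only [h2 _ S hS]
  | min k u hu =>
    choose u' h1 h2 using fun j => h _ (hu j)
    refine ⟨_, Gate.min k u' h1, fun S hS => ?_⟩
    simp only [h2 _ S hS]
  | mono φ hφ u hu =>
    choose u' h1 h2 using fun j => h _ (hu j)
    refine ⟨_, Gate.mono φ hφ u' h1, fun S hS => ?_⟩
    simp only [h2 _ S hS]

theorem gate_const {κ : ℕ} {U : Set V} {g : ℕ → Finset V → ℝ} {i : ℕ} (c : ℝ) :
    Gate κ (Avail U g i) (fun _ => c) := by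
  have h := Gate.max (κ := κ) (A := Avail U g i) 0 (fun _ _ => c) fun _ => Avail.const c
  simpa using h

variable {κ : ℕ} {U : Set V}

/-- the value of the negation at position `i` under the pattern `A` -/
def pat (A : Finset ℕ) (i : ℕ) : ℝ := if i ∈ A then 1 else 0

/-- the sets on which the negations before position `i` follow the pattern -/
def Fol (C : NegCircuit κ U) (A : Finset ℕ) (i : ℕ) : Set (Finset V) :=
  {S | ∀ q ∈ C.neg, q < i → C.gate q S = pat A q}

theorem stages (C : NegCircuit κ U) (A : Finset ℕ) : ∀ n ≤ C.size, ∃ g : ℕ → Finset V → ℝ,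
    (∀ i < n, Gate κ (Avail U g i) (g i)) ∧
      ∀ i < n, ∀ S ∈ Fol C A n, g i S = C.gate i S := by
  intro n
  induction n with
  | zero => exact fun _ => ⟨fun _ _ => 0, fun i hi => absurd hi (by omega), fun i hi => absurd hi (by omega)⟩
  | succ n ih =>
    intro hn
    obtain ⟨g, hg1, hg2⟩ := ih (by omega)
    have hFol : ∀ S ∈ Fol C A (n + 1), S ∈ Fol C A n := fun S hS q hq hqn => hS q hq (by omega)
    have key : ∃ f, Gate κ (Avail U g n) f ∧ ∀ S ∈ Fol C A (n + 1), f S = C.gate n S := by
      by_cases hneg : n ∈ C.neg
      · exact ⟨fun _ => pat A n, gate_const _, fun S hS => (hS n hneg (by omega)).symm⟩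
      · refine Gate.transfer (Fol C A (n + 1)) (fun u hu => ?_) (C.isGate n (by omega) hneg)
        cases hu with
        | const c => exact ⟨_, Avail.const c, fun _ _ => rfl⟩
        | input v hv => exact ⟨_, Avail.input v hv, fun _ _ => rfl⟩
        | gate j hj => exact ⟨_, Avail.gate j hj, fun S hS => hg2 j hj S (hFol S hS)⟩
    obtain ⟨f, hf1, hf2⟩ := key
    have hup : ∀ i ≤ n, ∀ j < i, g j = Function.update g n f j := fun i hi j hj => by
      rw [Function.update_of_ne (by omega)]
    refine ⟨Function.update g n f, fun i hi => ?_, fun i hi S hS => ?_⟩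
    · rcases Nat.lt_succ_iff_lt_or_eq.1 hi with h | rfl
      · rw [Function.update_of_ne (by omega)]
        exact Gate.imp (fun u hu => Avail.congr (hup i h.le) hu) (hg1 i h)
      · rw [Function.update_self]
        exact Gate.imp (fun u hu => Avail.congr (hup i le_rfl) hu) hf1
    · rcases Nat.lt_succ_iff_lt_or_eq.1 hi with h | rfl
      · rw [Function.update_of_ne (by omega)]
        exact hg2 i h S (hFol S hS)
      · rw [Function.update_self]
        exact hf2 S hS

/-- the monotone circuit with the given output -/
theorem exists_circuit (C : NegCircuit κ U) (A : Finset ℕ) (n : ℕ) (hn : n ≤ C.size)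
    {u : Finset V → ℝ} (hu : Avail U C.gate n u) : ∃ C' : Circuit κ U, C'.size ≤ C.size ∧
      ∀ S ∈ Fol C A n, C'.out S = u S := by
  obtain ⟨g, hg1, hg2⟩ := stages C A n hn
  have : ∃ u', Avail U g n u' ∧ ∀ S ∈ Fol C A n, u' S = u S := by
    cases hu with
    | const c => exact ⟨_, Avail.const c, fun _ _ => rfl⟩
    | input v hv => exact ⟨_, Avail.input v hv, fun _ _ => rfl⟩
    | gate j hj => exact ⟨_, Avail.gate j hj, fun S hS => hg2 j hj S hS⟩
  obtain ⟨u', h1, h2⟩ := this
  exact ⟨⟨n, g, hg1, u', h1⟩, hn, h2⟩

/-- monotone circuits are monotone -/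
theorem Circuit.mono (C : Circuit κ U) {S S' : Finset V} (h : S ⊆ S') : C.out S ≤ C.out S' := by
  have hav : ∀ i, (∀ j < i, C.gate j S ≤ C.gate j S') → ∀ u, Avail U C.gate i u → u S ≤ u S' := by
    intro i hi u hu
    cases hu with
    | const c => exact le_rfl
    | input v hv =>
      unfold input
      by_cases h1 : v ∈ S
      · rw [if_pos h1, if_pos (h h1)]
      · rw [if_neg h1]
        split_ifs <;> norm_num
    | gate j hj => exact hi j hj
  have hg : ∀ i, i ≤ C.size → ∀ j < i, C.gate j S ≤ C.gate j S' := by
    intro i
    induction i with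
    | zero => intro _ j hj; omega
    | succ i ih =>
      intro hi j hj
      rcases Nat.lt_succ_iff_lt_or_eq.1 hj with h1 | rfl
      · exact ih (by omega) j h1
      · have ha := hav j (ih (by omega))
        have hG := C.isGate j (by omega)
        generalize C.gate j = f at hG
        cases hG with
        | max k u hu =>
          exact sup'_le _ _ fun l _ => (ha _ (hu l)).trans (le_sup' (fun l => u l S') (mem_univ l))
        | min k u hu =>
          exact le_inf' _ _ fun l _ => (inf'_le (fun l => u l S) (mem_univ l)).trans (ha _ (hu l))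
        | mono φ hφ u hu => exact hφ fun l => ha _ (hu l)
  exact hav C.size (hg _ le_rfl) _ C.isOut

/-- **The covering.** -/
theorem cover (C : NegCircuit κ U) : ∃ F : Finset ℕ → Circuit κ U, (∀ A, (F A).size ≤ C.size) ∧
    ∀ S S' : Finset V, S ⊆ S' → ¬ C.Accepts S → C.Accepts S' →
      ∃ A ∈ (insert C.size (C.neg.filter (· < C.size))).powerset,
        ¬ (F A).Accepts S ∧ (F A).Accepts S' := by
  classical
  -- the argument of the negation at position `n`, or the output
  have harg : ∀ n ≤ C.size, ∃ u, Avail U C.gate n u ∧
      (n = C.size → u = C.out) ∧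
      (n < C.size → n ∈ C.neg → C.gate n = fun S => if 0 < u S then 0 else 1) := by
    intro n hn
    rcases Nat.lt_or_eq_of_le hn with h | h
    · by_cases hneg : n ∈ C.neg
      · obtain ⟨u, h1, h2⟩ := C.isNeg n h hneg
        exact ⟨u, h1, fun h3 => absurd h3 (by omega), fun _ _ => h2⟩
      · exact ⟨_, Avail.const 0, fun h3 => absurd h3 (by omega), fun _ h4 => absurd h4 hneg⟩
    · subst h
      exact ⟨_, C.isOut, fun _ => rfl, fun h3 => absurd h3 (by omega)⟩
  have hF : ∀ A : Finset ℕ, ∃ C' : Circuit κ U, C'.size ≤ C.size ∧ ∀ n ≤ C.size,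
      A.max = n → ∃ u, Avail U C.gate n u ∧ (n = C.size → u = C.out) ∧
      (n < C.size → n ∈ C.neg → C.gate n = fun S => if 0 < u S then 0 else 1) ∧
      ∀ S ∈ Fol C A n, C'.out S = u S := by
    intro A
    by_cases hA : ∃ n ≤ C.size, A.max = n
    · obtain ⟨n, hn, hAn⟩ := hA
      obtain ⟨u, h1, h2, h3⟩ := harg n hn
      obtain ⟨C', h4, h5⟩ := exists_circuit C A n hn h1
      refine ⟨C', h4, fun n' hn' hAn' => ?_⟩
      have : n' = n := by
        rw [hAn] at hAn'
        exact (WithBot.coe_injective hAn').symm
      subst this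
      exact ⟨u, h1, h2, h3, h5⟩
    · exact ⟨⟨0, fun _ _ => 0, fun i hi => absurd hi (by omega), _, Avail.const 0⟩, Nat.zero_le _,
        fun n hn hAn => absurd ⟨n, hn, hAn⟩ hA⟩
  choose F hF1 hF2 using hF
  refine ⟨F, hF1, fun S S' hS hrej hacc => ?_⟩
  -- the first negation which distinguishes `S` and `S'`
  set D : Finset ℕ := insert C.size ((C.neg.filter (· < C.size)).filter
    fun q => C.gate q S ≠ C.gate q S') with hD
  have hDne : D.Nonempty := ⟨C.size, mem_insert_self _ _⟩
  set n := D.min' hDne with hn
  have hnD : n ∈ D := D.min'_mem hDne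
  have hnle : n ≤ C.size := D.min'_le _ (mem_insert_self _ _)
  set A : Finset ℕ := insert n ((C.neg.filter (· < n)).filter fun q => C.gate q S = 1) with hA
  have hmax : A.max = n := by
    apply le_antisymm
    · refine Finset.max_le fun a ha => ?_
      rw [hA, mem_insert, mem_filter, mem_filter] at ha
      rcases ha with rfl | ha
      · exact le_rfl
      · exact WithBot.coe_le_coe.2 ha.1.2.le
    · exact Finset.le_max (mem_insert_self _ _)
  have hval : ∀ q ∈ C.neg, q < C.size → C.gate q S = 0 ∨ C.gate q S = 1 := by
    intro q hq hqs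
    obtain ⟨u, -, h2⟩ := C.isNeg q hqs hq
    rw [h2]
    dsimp only
    split_ifs
    · exact Or.inl rfl
    · exact Or.inr rfl
  have hsame : ∀ q ∈ C.neg, q < n → C.gate q S = C.gate q S' := by
    intro q hq hqn
    by_contra hne
    have : q ∈ D := by
      rw [hD, mem_insert, mem_filter, mem_filter]
      exact Or.inr ⟨⟨hq, by omega⟩, hne⟩
    have := D.min'_le q this
    omega
  have hFolS : S ∈ Fol C A n := by
    intro q hq hqn
    unfold pat
    by_cases h1 : q ∈ A
    · rw [if_pos h1]
      rw [hA, mem_insert, mem_filter] at h1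
      rcases h1 with h1 | h1
      · omega
      · exact h1.2
    · rw [if_neg h1]
      rcases hval q hq (by omega) with h2 | h2
      · exact h2
      · exfalso
        apply h1
        rw [hA, mem_insert, mem_filter, mem_filter]
        exact Or.inr ⟨⟨hq, hqn⟩, h2⟩
  have hFolS' : S' ∈ Fol C A n := fun q hq hqn => by
    rw [← hsame q hq hqn]
    exact hFolS q hq hqn
  obtain ⟨u, hu1, hu2, hu3, hu4⟩ := hF2 A n hnle hmax
  have hAmem : A ∈ (insert C.size (C.neg.filter (· < C.size))).powerset := by
    rw [mem_powerset]
    intro q hq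
    rw [hA, mem_insert, mem_filter, mem_filter] at hq
    rw [mem_insert, mem_filter]
    rcases hq with rfl | hq
    · rw [hD, mem_insert, mem_filter, mem_filter] at hnD
      rcases hnD with h | h
      · exact Or.inl h
      · exact Or.inr h.1
    · exact Or.inr ⟨hq.1.1, by omega⟩
  refine ⟨A, hAmem, ?_⟩
  have hmon : u S ≤ u S' := by
    rw [← hu4 S hFolS, ← hu4 S' hFolS']
    exact Circuit.mono _ hS
  show ¬ 0 < (F A).out S ∧ 0 < (F A).out S'
  rw [hu4 S hFolS, hu4 S' hFolS']
  rcases Nat.lt_or_eq_of_le hnle with hlt | heq
  · rw [hD, mem_insert, mem_filter, mem_filter] at hnD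
    rcases hnD with h | ⟨⟨h1, -⟩, h2⟩
    · omega
    · rw [hu3 hlt h1] at h2
      dsimp only at h2
      by_cases c1 : 0 < u S
      · have c2 : 0 < u S' := lt_of_lt_of_le c1 hmon
        rw [if_pos c1, if_pos c2] at h2
        exact absurd rfl h2
      · refine ⟨c1, ?_⟩
        by_contra c2
        rw [if_neg c1, if_neg c2] at h2
        exact h2 rfl
  · rw [hu2 heq]
    exact ⟨hrej, hacc⟩

/-- restriction to the sets which contain the background `B` -/
def restr (C : Circuit κ U) (B : Finset V) : Circuit κ U where
  size := C.size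
  gate := fun i S => C.gate i (B ∪ S)
  isGate := by
    intro i hi
    have key : ∀ u, Avail U C.gate i u → Avail U (fun i S => C.gate i (B ∪ S)) i
        (fun S => u (B ∪ S)) := by
      intro u hu
      cases hu with
      | const c => exact Avail.const c
      | input v hv =>
        by_cases hvB : v ∈ B
        · have : (fun S => input v (B ∪ S)) = fun _ => (1 : ℝ) := by
            funext S
            simp [input, hvB]
          rw [this]
          exact Avail.const 1
        · have : (fun S => input v (B ∪ S)) = input v := by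
            funext S
            simp [input, hvB]
          rw [this]
          exact Avail.input v hv
      | gate j hj => exact Avail.gate (g := fun i S => C.gate i (B ∪ S)) j hj
    have hG := C.isGate i hi
    generalize C.gate i = f at hG
    cases hG with
    | max k u hu => exact Gate.max k (fun j S => u j (B ∪ S)) fun j => key _ (hu j)
    | min k u hu => exact Gate.min k (fun j S => u j (B ∪ S)) fun j => key _ (hu j)
    | mono φ hφ u hu => exact Gate.mono φ hφ (fun j S => u j (B ∪ S)) fun j => key _ (hu j)
  out := fun S => C.out (B ∪ S)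
  isOut := by
    have hO := C.isOut
    generalize C.out = u at hO
    cases hO with
    | const c => exact Avail.const c
    | input v hv =>
      by_cases hvB : v ∈ B
      · have : (fun S => input v (B ∪ S)) = fun _ => (1 : ℝ) := by
          funext S
          simp [input, hvB]
        rw [this]
        exact Avail.const 1
      · have : (fun S => input v (B ∪ S)) = input v := by
          funext S
          simp [input, hvB]
        rw [this]
        exact Avail.input v hv
    | gate j hj => exact Avail.gate (g := fun i S => C.gate i (B ∪ S)) j hj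

theorem restr_accepts (C : Circuit κ U) (B S : Finset V) :
    (restr C B).Accepts S ↔ C.Accepts (B ∪ S) := Iff.rfl

end Pool.Agent.Helper90K9.NG
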