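import Mathlib
import Pool.Agent.Helper90K9.NG.Circ

/-!
# Counting the levels separated by a monotone circuit

Levels `j < m` with positive tests `P j i` and negative tests `T j a`. The background of level `j` is
the union of the negative tests `T i (ω i)`, `i < j`.
-/

set_option autoImplicit false
set_option linter.unusedSectionVars false
set_option linter.unusedDecidableInType false

namespace Pool.Agent.Helper90K9.NG

open Finset Helper54K9.Mono

variable {V : Type*} [DecidableEq V] {κ : ℕ} {U : Set V}

/-- resampling of one coordinate -/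
theorem resample {Ω : Type*} [Fintype Ω] [DecidableEq Ω] {m : ℕ} (j : Fin m)
    (f : (Fin m → Ω) → ℕ) :
    Fintype.card Ω * ∑ ω, f ω = ∑ ω, ∑ a, f (Function.update ω j a) := by
  classical
  rw [← Fintype.sum_prod_type' (f := fun ω a => f (Function.update ω j a))]
  have h1 : Fintype.card Ω * ∑ ω, f ω = ∑ x : (Fin m → Ω) × Ω, f x.1 := by
    rw [Fintype.sum_prod_type]
    simp [Finset.mul_sum]
  rw [h1]
  let e : (Fin m → Ω) × Ω → (Fin m → Ω) × Ω := fun x => (Function.update x.1 j x.2, x.1 j)
  have he : Function.Involutive e := by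
    rintro ⟨ω, a⟩
    simp only [e, Function.update_self, Function.update_idem, Function.update_eq_self]
  exact (Function.Bijective.sum_comp he.bijective (fun x => f x.1)).symm

/-- the background of level `j` -/
def Bg {Ω : Type*} {m : ℕ} (T : Fin m → Ω → Finset V) (j : ℕ) (ω : Fin m → Ω) : Finset V :=
  (univ.filter (fun i : Fin m => (i : ℕ) < j)).biUnion fun i => T i (ω i)

theorem mem_Bg {Ω : Type*} {m : ℕ} {T : Fin m → Ω → Finset V} {j : ℕ} {ω : Fin m → Ω} {x : V} :
    x ∈ Bg T j ω ↔ ∃ i : Fin m, (i : ℕ) < j ∧ x ∈ T i (ω i) := by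
  simp [Bg]

theorem Bg_mono {Ω : Type*} {m : ℕ} (T : Fin m → Ω → Finset V) {j j' : ℕ} (h : j ≤ j')
    (ω : Fin m → Ω) : Bg T j ω ⊆ Bg T j' ω := by
  intro x hx
  rw [mem_Bg] at hx ⊢
  obtain ⟨i, hi, hx⟩ := hx
  exact ⟨i, by omega, hx⟩

theorem Bg_succ {Ω : Type*} {m : ℕ} (T : Fin m → Ω → Finset V) (j : Fin m) (ω : Fin m → Ω) :
    Bg T (j + 1) ω = Bg T j ω ∪ T j (ω j) := by
  ext x
  rw [mem_union, mem_Bg, mem_Bg]
  constructor
  · rintro ⟨i, hi, hx⟩
    rcases Nat.lt_succ_iff_lt_or_eq.1 hi with h | h
    · exact Or.inl ⟨i, h, hx⟩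
    · have : i = j := Fin.ext h
      rw [this] at hx
      exact Or.inr hx
  · rintro (⟨i, hi, hx⟩ | hx)
    · exact ⟨i, by omega, hx⟩
    · exact ⟨j, by omega, hx⟩

theorem Bg_update {Ω : Type*} {m : ℕ} (T : Fin m → Ω → Finset V) (j : Fin m) (ω : Fin m → Ω)
    (a : Ω) : Bg T j (Function.update ω j a) = Bg T j ω := by
  ext x
  rw [mem_Bg, mem_Bg]
  refine exists_congr fun i => and_congr_right fun hi => ?_
  rw [Function.update_of_ne]
  rintro rfl
  exact absurd hi (lt_irrefl _)

section

variable {ι Ω : Type*} [Fintype ι] [Fintype Ω] [DecidableEq ι] [DecidableEq Ω] {m : ℕ}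
  (P : Fin m → ι → Finset V) (T : Fin m → Ω → Finset V) (R : Fin m → Finset V)

open Classical in
/-- the number of the positive tests at level `j` separated from the background -/
noncomputable def sep (acc : Finset V → Prop) (ω : Fin m → Ω) (j : Fin m) : ℕ :=
  (univ.filter (fun i : ι => ¬ acc (Bg T j ω) ∧ acc (Bg T j ω ∪ P j i))).card

variable {P T R}

open Classical in
theorem sep_count {s D N : ℕ} (hP : ∀ j i, (P j i).Nonempty) (hPR : ∀ j i, P j i ⊆ R j)
    (hs : 1 ≤ s)
    (h1 : ∀ j x y, x ≠ y → (univ.filter (fun i => x ∈ P j i ∧ y ∈ P j i)).card ≤ 1)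
    (h2 : ∀ j x, (univ.filter (fun i => x ∈ P j i)).card ≤ N)
    (h3 : ∀ j, ∀ I ⊆ R j, s < I.card → D * (univ.filter (fun a => Disjoint (T j a) I)).card ≤
      Fintype.card Ω) (C : Circuit κ U) :
    D * ∑ ω, ∑ j, sep P T C.Accepts ω j ≤ Fintype.card (Fin m → Ω) *
      (D * (m * (C.size * ((κ ^ 2 + 1) * s ^ 2) + s * N)) +
        Fintype.card ι * (D + m * C.size)) := by
  -- the first case of the main estimate
  let c1 : (Fin m → Ω) → Fin m → Prop := fun ω j =>
    D * (univ.filter (fun a : Ω => ¬ C.Accepts (Bg T j ω ∪ T j a))).card ≤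
      C.size * Fintype.card Ω
  have hmain : ∀ ω j, c1 ω j ∨ (univ.filter (fun i : ι => C.Accepts (Bg T j ω ∪ P j i))).card ≤
      C.size * ((κ ^ 2 + 1) * s ^ 2) + s * N := by
    intro ω j
    have h := Helper54K9.Mono.main (P := P j) (T := T j) (R := R j) (s := s) (D := D) (N := N)
      (hP j) (hPR j) hs (h1 j) (h2 j) (h3 j) (restr C (Bg T j ω))
    simp only [restr_accepts] at h
    have e1 := Finset.card_filter_add_card_filter_not (s := (univ : Finset Ω))
      (fun a => C.Accepts (Bg T j ω ∪ T j a))
    have e2 := Finset.card_filter_add_card_filter_not (s := (univ : Finset ι))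
      (fun i => C.Accepts (Bg T j ω ∪ P j i))
    rw [card_univ] at e1 e2
    rcases h with h | h
    · left
      show D * _ ≤ _
      have h' : D * Fintype.card Ω = D * (univ.filter (fun a : Ω =>
          C.Accepts (Bg T j ω ∪ T j a))).card + D * (univ.filter (fun a : Ω =>
          ¬ C.Accepts (Bg T j ω ∪ T j a))).card := by rw [← e1, Nat.mul_add]
      have h'' : (restr C (Bg T j ω)).size = C.size := rfl
      rw [h', h''] at h
      omega
    · right
      have h'' : (restr C (Bg T j ω)).size = C.size := rfl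
      rw [h''] at h
      omega
  -- the rejected backgrounds with the first case
  let J : (Fin m → Ω) → Finset (Fin m) := fun ω => univ.filter fun j =>
    ¬ C.Accepts (Bg T j ω) ∧ c1 ω j
  let J' : (Fin m → Ω) → Finset (Fin m) := fun ω => univ.filter fun j =>
    c1 ω j ∧ ¬ C.Accepts (Bg T j ω ∪ T j (ω j))
  have hJ : ∀ ω, (J ω).card ≤ 1 + (J' ω).card := by
    intro ω
    rcases (J ω).eq_empty_or_nonempty with h | h
    · rw [h]; simp
    · have hsub : J ω ⊆ insert ((J ω).max' h) (J' ω) := by
        intro j hj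
        rw [mem_insert]
        rcases eq_or_ne j ((J ω).max' h) with h4 | h4
        · exact Or.inl h4
        · right
          have hle : j < (J ω).max' h := lt_of_le_of_ne ((J ω).le_max' j hj) h4
          have hm := (J ω).max'_mem h
          have hj' := (mem_filter.1 hj).2
          have hm' := (mem_filter.1 hm).2
          rw [mem_filter]
          refine ⟨mem_univ _, hj'.2, fun hacc => hm'.1 ?_⟩
          rw [← Bg_succ] at hacc
          exact lt_of_lt_of_le hacc (Circuit.mono C (Bg_mono T (by
            have : (j : ℕ) < ((J ω).max' h : Fin m) := hle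
            omega) ω))
      exact (card_le_card hsub).trans ((card_insert_le _ _).trans (by omega))
  have hJ' : D * ∑ ω, (J' ω).card ≤ Fintype.card (Fin m → Ω) * (m * C.size) := by
    have e1 : ∑ ω, (J' ω).card = ∑ j, ∑ ω,
        (if c1 ω j ∧ ¬ C.Accepts (Bg T j ω ∪ T j (ω j)) then 1 else 0) := by
      rw [sum_comm]
      exact sum_congr rfl fun ω _ => card_filter _ _
    have e2 : ∀ j, D * ∑ ω, (if c1 ω j ∧ ¬ C.Accepts (Bg T j ω ∪ T j (ω j)) then 1 else 0) ≤
        Fintype.card (Fin m → Ω) * C.size := by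
      intro j
      rcases Nat.eq_zero_or_pos (Fintype.card Ω) with h0 | h0
      · have hem : IsEmpty (Fin m → Ω) := by
          have := Fintype.card_eq_zero_iff.1 h0
          exact ⟨fun ω => this.elim (ω j)⟩
        simp
      · refine Nat.le_of_mul_le_mul_left ?_ h0
        calc Fintype.card Ω * (D * ∑ ω, (if c1 ω j ∧ ¬ C.Accepts (Bg T j ω ∪ T j (ω j))
              then 1 else 0))
            = D * (Fintype.card Ω * ∑ ω, (if c1 ω j ∧ ¬ C.Accepts (Bg T j ω ∪ T j (ω j))
              then 1 else 0)) := by ring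
          _ = D * ∑ ω, ∑ a, (if c1 ω j ∧ ¬ C.Accepts (Bg T j ω ∪ T j a) then 1 else 0) := by
              rw [resample j]
              congr 1
              refine sum_congr rfl fun ω _ => sum_congr rfl fun a _ => ?_
              simp only [c1, Bg_update, Function.update_self]
          _ = ∑ ω, D * ∑ a, (if c1 ω j ∧ ¬ C.Accepts (Bg T j ω ∪ T j a) then 1 else 0) := by
              rw [mul_sum]
          _ ≤ ∑ _ω : Fin m → Ω, C.size * Fintype.card Ω := by
              refine sum_le_sum fun ω _ => ?_
              by_cases hc : c1 ω j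
              · simp only [hc, true_and]
                rw [← card_filter]
                exact hc
              · simp [hc]
          _ = Fintype.card Ω * (Fintype.card (Fin m → Ω) * C.size) := by
              rw [sum_const, card_univ, smul_eq_mul]
              ring
    rw [e1, mul_sum]
    refine (sum_le_sum fun j _ => e2 j).trans ?_
    rw [sum_const, card_univ, Fintype.card_fin, smul_eq_mul]
    exact le_of_eq (by ring)
  -- pointwise
  have hpt : ∀ ω, ∑ j, sep P T C.Accepts ω j ≤
      m * (C.size * ((κ ^ 2 + 1) * s ^ 2) + s * N) + Fintype.card ι * (J ω).card := by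
    intro ω
    have e3 : ∀ j, sep P T C.Accepts ω j ≤ (C.size * ((κ ^ 2 + 1) * s ^ 2) + s * N) +
        Fintype.card ι * (if ¬ C.Accepts (Bg T j ω) ∧ c1 ω j then 1 else 0) := by
      intro j
      unfold sep
      by_cases hrej : ¬ C.Accepts (Bg T j ω)
      · have e4 : (univ.filter (fun i : ι => ¬ C.Accepts (Bg T j ω) ∧
            C.Accepts (Bg T j ω ∪ P j i))) = univ.filter (fun i : ι =>
            C.Accepts (Bg T j ω ∪ P j i)) := filter_congr fun i _ => by simp [hrej]
        rw [e4]
        rcases hmain ω j with h | h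
        · rw [if_pos ⟨hrej, h⟩, mul_one]
          exact (card_le_univ _).trans (Nat.le_add_left _ _)
        · exact h.trans (Nat.le_add_right _ _)
      · have e4 : (univ.filter (fun i : ι => ¬ C.Accepts (Bg T j ω) ∧
            C.Accepts (Bg T j ω ∪ P j i))) = ∅ := filter_eq_empty_iff.2 fun i _ h => hrej h.1
        rw [e4, card_empty]
        exact Nat.zero_le _
    refine (sum_le_sum fun j _ => e3 j).trans ?_
    rw [sum_add_distrib, sum_const, card_univ, Fintype.card_fin, smul_eq_mul, ← mul_sum,
      ← card_filter]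
  calc D * ∑ ω, ∑ j, sep P T C.Accepts ω j
      ≤ D * ∑ ω, (m * (C.size * ((κ ^ 2 + 1) * s ^ 2) + s * N) +
          Fintype.card ι * (1 + (J' ω).card)) :=
        Nat.mul_le_mul_left _ (sum_le_sum fun ω _ => (hpt ω).trans
          (Nat.add_le_add_left (Nat.mul_le_mul_left _ (hJ ω)) _))
    _ = Fintype.card (Fin m → Ω) * (D * (m * (C.size * ((κ ^ 2 + 1) * s ^ 2) + s * N)) +
          Fintype.card ι * D) + Fintype.card ι * (D * ∑ ω, (J' ω).card) := by
        rw [sum_add_distrib, sum_const, card_univ, smul_eq_mul, ← mul_sum, sum_add_distrib,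
          sum_const, card_univ, smul_eq_mul]
        ring
    _ ≤ Fintype.card (Fin m → Ω) * (D * (m * (C.size * ((κ ^ 2 + 1) * s ^ 2) + s * N)) +
          Fintype.card ι * D) + Fintype.card ι * (Fintype.card (Fin m → Ω) * (m * C.size)) :=
        Nat.add_le_add_left (Nat.mul_le_mul_left _ hJ') _
    _ = _ := by ring

end

end Pool.Agent.Helper90K9.NG
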