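import Mathlib
import Pool.Agent.Helper54K9.Mono.Tests
import Pool.Agent.Helper90K9.NG.Count

/-!
# Copies of the tests in residue classes without common solutions
-/

set_option autoImplicit false
set_option linter.unusedSectionVars false
set_option linter.unusedDecidableInType false

namespace Pool.Agent.Helper90K9.NG

open Finset Helper54K9.Mono

/-- the residue of level `j` for the three kinds of integers -/
def off (m N j : ℕ) (u : ℤ) : ℤ :=
  if u < 0 then -((j : ℤ) + m * j) else if u < 6 * N then j else m * j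

/-- the copy of level `j` -/
def lev (m N j : ℕ) (u : ℤ) : ℤ := 4 * (m : ℤ) ^ 2 * u + off m N j u

theorem off_bound {m N j : ℕ} (hj : j < m) (u : ℤ) :
    -((m : ℤ) ^ 2) < off m N j u ∧ off m N j u < (m : ℤ) ^ 2 := by
  have h1 : (j : ℤ) + 1 ≤ m := by exact_mod_cast hj
  have h0 : (0 : ℤ) ≤ j := Int.natCast_nonneg j
  unfold off
  split_ifs <;> constructor <;> nlinarith

theorem off_abs {m N j : ℕ} (hj : j < m) (u : ℤ) : |off m N j u| < (m : ℤ) ^ 2 :=
  abs_lt.2 (off_bound hj u)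

theorem zero_of {q U r : ℤ} (hr : |r| < q) (h : q * U + r = 0) : U = 0 ∧ r = 0 := by
  have hq : 0 < q := lt_of_le_of_lt (abs_nonneg _) hr
  rw [abs_lt] at hr
  have hU : U = 0 := by
    by_contra hne
    rcases lt_or_gt_of_ne hne with h1 | h1
    · nlinarith
    · nlinarith
  refine ⟨hU, ?_⟩
  rw [hU] at h
  linarith

theorem lev_inj {m N j : ℕ} (hj : j < m) : Function.Injective (lev m N j) := by
  intro u w h
  unfold lev at h
  have h1 : 4 * (m : ℤ) ^ 2 * (u - w) + (off m N j u - off m N j w) = 0 := by linarith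
  have h2 := off_bound (N := N) hj u
  have h3 := off_bound (N := N) hj w
  have := zero_of (q := 4 * (m : ℤ) ^ 2) (by rw [abs_lt]; constructor <;> linarith) h1
  linarith [this.1]

variable {p : ℕ} [Fact p.Prime]

/-- positive tests of level `j` -/
def posL (m N : ℕ) (j : Fin m) (i : Fin N × Fin N) : Finset ℤ := (pos N i).image (lev m N j)

/-- negative tests of level `j` -/
def negL (m N r : ℕ) (j : Fin m) (ω : Fin (3 * r) → Om p) : Finset ℤ :=
  (neg N r ω).image (lev m N j)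

/-- relevant integers of level `j` -/
def relL (m N : ℕ) (j : Fin m) : Finset ℤ := (rel N).image (lev m N j)

theorem posL_nonempty (m N : ℕ) (j : Fin m) (i : Fin N × Fin N) : (posL m N j i).Nonempty :=
  (pos_nonempty N i).image _

theorem posL_subset (m N : ℕ) (j : Fin m) (i : Fin N × Fin N) : posL m N j i ⊆ relL m N j :=
  image_subset_image (pos_subset N i)

theorem negL_subset (m N r : ℕ) (j : Fin m) (ω : Fin (3 * r) → Om p) :
    negL m N r j ω ⊆ relL m N j := image_subset_image (neg_subset N r ω)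

theorem mem_posL {m N : ℕ} {j : Fin m} {i : Fin N × Fin N} {u : ℤ} :
    lev m N j u ∈ posL m N j i ↔ u ∈ pos N i := by
  unfold posL
  rw [mem_image]
  exact ⟨fun ⟨w, hw, h⟩ => (lev_inj j.2 h) ▸ hw, fun h => ⟨u, h, rfl⟩⟩

theorem mem_negL {m N r : ℕ} {j : Fin m} {ω : Fin (3 * r) → Om p} {u : ℤ} :
    lev m N j u ∈ negL m N r j ω ↔ u ∈ neg N r ω := by
  unfold negL
  rw [mem_image]
  exact ⟨fun ⟨w, hw, h⟩ => (lev_inj j.2 h) ▸ hw, fun h => ⟨u, h, rfl⟩⟩

theorem posL_pair (m N : ℕ) (j : Fin m) (x y : ℤ) (hxy : x ≠ y) :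
    (univ.filter (fun i => x ∈ posL m N j i ∧ y ∈ posL m N j i)).card ≤ 1 := by
  by_cases hx : ∃ u, lev m N j u = x
  · by_cases hy : ∃ w, lev m N j w = y
    · obtain ⟨u, rfl⟩ := hx
      obtain ⟨w, rfl⟩ := hy
      simp only [mem_posL]
      exact pos_pair N u w fun h => hxy (by rw [h])
    · rw [filter_eq_empty_iff.2]
      · simp
      · rintro i - ⟨-, h⟩
        obtain ⟨w, -, hw⟩ := mem_image.1 h
        exact hy ⟨w, hw⟩
  · rw [filter_eq_empty_iff.2]
    · simp
    · rintro i - ⟨h, -⟩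
      obtain ⟨w, -, hw⟩ := mem_image.1 h
      exact hx ⟨w, hw⟩

theorem posL_one (m N : ℕ) (j : Fin m) (x : ℤ) :
    (univ.filter (fun i => x ∈ posL m N j i)).card ≤ N := by
  by_cases hx : ∃ u, lev m N j u = x
  · obtain ⟨u, rfl⟩ := hx
    simp only [mem_posL]
    exact pos_one N u
  · rw [filter_eq_empty_iff.2]
    · simp
    · rintro i - h
      obtain ⟨w, -, hw⟩ := mem_image.1 h
      exact hx ⟨w, hw⟩

theorem negL_hit (m N r : ℕ) (j : Fin m) (hp : 2 * N ≤ p) (hp5 : 5 ≤ p) (I : Finset ℤ)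
    (hI : I ⊆ relL m N j) (hcard : 3 * (8 ^ (3 * r) * 2 ^ (r + 7)) < I.card) :
    2 ^ (r ^ 2) * (univ.filter (fun ω : Fin (3 * r) → Om p => Disjoint (negL m N r j ω) I)).card ≤
      Fintype.card (Fin (3 * r) → Om p) := by
  classical
  set I' := (rel N).filter (fun u => lev m N j u ∈ I) with hI'
  have hIim : I = I'.image (lev m N j) := by
    ext x
    rw [mem_image]
    constructor
    · intro hx
      obtain ⟨u, hu, rfl⟩ := mem_image.1 (hI hx)
      exact ⟨u, mem_filter.2 ⟨hu, hx⟩, rfl⟩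
    · rintro ⟨u, hu, rfl⟩
      exact (mem_filter.1 hu).2
  have hc : I'.card = I.card := by
    rw [hIim, card_image_of_injective _ (lev_inj j.2)]
  have h := neg_hit (p := p) N r hp hp5 I' (filter_subset _ _) (by rw [hc]; exact hcard)
  refine le_trans (Nat.mul_le_mul_left _ (card_le_card fun ω hω => ?_)) h
  rw [mem_filter] at hω ⊢
  refine ⟨mem_univ _, ?_⟩
  rw [disjoint_left]
  intro u hu hu2
  exact disjoint_left.1 hω.2 (mem_negL.2 hu) (mem_filter.1 hu2).2

/-- the kind of an element of a negative test -/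
theorem off_kinds {m N j r : ℕ} (ω : Fin (3 * r) → Om p) {u : ℤ} (hu : u ∈ neg N r ω) :
    (4 * (N : ℤ) ≤ u ∧ u < 5 * N ∧ off m N j u = j) ∨
    (8 * (N : ℤ) ≤ u ∧ u < 9 * N ∧ off m N j u = m * j) ∨
    (u ≤ -(12 * (N : ℤ)) ∧ -(14 * (N : ℤ)) < u ∧ off m N j u = -((j : ℤ) + m * j)) := by
  rcases kinds N r ω hu with ⟨x, -, h, hx⟩ | ⟨x, -, h, hx⟩ | ⟨x, -, h, hx⟩
  · left
    refine ⟨by omega, by omega, ?_⟩
    unfold off
    rw [if_neg (by omega), if_pos (by omega)]
  · right; left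
    refine ⟨by omega, by omega, ?_⟩
    unfold off
    rw [if_neg (by omega), if_neg (by omega)]
  · right; right
    refine ⟨by omega, by omega, ?_⟩
    unfold off
    rw [if_pos (by omega)]

theorem digits {m i j k : ℕ} (hi : i < m) (hj : j < m) (hk : k < m)
    (h : (i : ℤ) + m * j + -((k : ℤ) + m * k) = 0) : i = k ∧ j = k := by
  have h1 : (i + m * j : ℕ) = k + m * k := by
    have : ((i + m * j : ℕ) : ℤ) = ((k + m * k : ℕ) : ℤ) := by push_cast; linarith
    exact_mod_cast this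
  have h2 : (i + m * j) % m = (k + m * k) % m := by rw [h1]
  rw [Nat.add_mul_mod_self_left, Nat.add_mul_mod_self_left, Nat.mod_eq_of_lt hi,
    Nat.mod_eq_of_lt hk] at h2
  subst h2
  have h3 : m * j = m * i := by omega
  exact ⟨rfl, Nat.eq_of_mul_eq_mul_left (by omega) h3⟩

/-- the backgrounds have no solution -/
theorem Bg_not (m N r : ℕ) (j : ℕ) (ω : Fin m → Fin (3 * r) → Om p) :
    ¬ HasZeroSum (Bg (negL m N r) j ω) := by
  rintro ⟨a, ha, b, hb, c, hc, hab, hac, hbc, hsum⟩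
  rw [mem_Bg] at ha hb hc
  obtain ⟨ja, -, ha⟩ := ha
  obtain ⟨jb, -, hb⟩ := hb
  obtain ⟨jc, -, hc⟩ := hc
  obtain ⟨ua, hua, rfl⟩ := mem_image.1 ha
  obtain ⟨ub, hub, rfl⟩ := mem_image.1 hb
  obtain ⟨uc, huc, rfl⟩ := mem_image.1 hc
  have oa := off_bound (N := N) ja.2 ua
  have ob := off_bound (N := N) jb.2 ub
  have oc := off_bound (N := N) jc.2 uc
  have key : 4 * (m : ℤ) ^ 2 * (ua + ub + uc) +
      (off m N ja ua + off m N jb ub + off m N jc uc) = 0 := by
    unfold lev at hsum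
    linarith
  obtain ⟨hU, hr⟩ := zero_of (q := 4 * (m : ℤ) ^ 2)
    (by rw [abs_lt]; constructor <;> linarith) key
  -- a permutation of the three kinds
  have fin : ∀ (i1 i2 i3 : Fin m) (u1 u2 u3 : ℤ), u1 ∈ neg N r (ω i1) → u2 ∈ neg N r (ω i2) →
      u3 ∈ neg N r (ω i3) → u1 + u2 + u3 = 0 → 0 < u1 → 0 < u2 → u3 < 0 → u1 < u2 →
      ((i1 : ℕ) : ℤ) + m * ((i2 : ℕ) : ℤ) + -(((i3 : ℕ) : ℤ) + m * ((i3 : ℕ) : ℤ)) = 0 →
      False := by
    intro i1 i2 i3 u1 u2 u3 h1 h2 h3 hs p1 p2 p3 p4 ho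
    obtain ⟨e1, e2⟩ := digits i1.2 i2.2 i3.2 ho
    have e1' : i1 = i3 := Fin.ext e1
    have e2' : i2 = i3 := Fin.ext e2
    subst e1' e2'
    exact neg_not N r _ ⟨u1, h1, u2, h2, u3, h3, by omega, by omega, by omega, hs⟩
  rcases off_kinds (m := m) (j := ja) _ hua with ⟨a1, a2, a3⟩ | ⟨a1, a2, a3⟩ | ⟨a1, a2, a3⟩ <;>
    rcases off_kinds (m := m) (j := jb) _ hub with ⟨b1, b2, b3⟩ | ⟨b1, b2, b3⟩ | ⟨b1, b2, b3⟩ <;>
    rcases off_kinds (m := m) (j := jc) _ huc with ⟨c1, c2, c3⟩ | ⟨c1, c2, c3⟩ | ⟨c1, c2, c3⟩ <;>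
    rw [a3, b3, c3] at hr <;>
    first
    | (exfalso; omega)
    | exact fin ja jb jc ua ub uc hua hub huc (by linarith) (by omega) (by omega) (by omega)
        (by omega) (by linarith)
    | exact fin ja jc jb ua uc ub hua huc hub (by linarith) (by omega) (by omega) (by omega)
        (by omega) (by linarith)
    | exact fin jb ja jc ub ua uc hub hua huc (by linarith) (by omega) (by omega) (by omega)
        (by omega) (by linarith)
    | exact fin jb jc ja ub uc ua hub huc hua (by linarith) (by omega) (by omega) (by omega)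
        (by omega) (by linarith)
    | exact fin jc ja jb uc ua ub huc hua hub (by linarith) (by omega) (by omega) (by omega)
        (by omega) (by linarith)
    | exact fin jc jb ja uc ub ua huc hub hua (by linarith) (by omega) (by omega) (by omega)
        (by omega) (by linarith)

/-- the positive tests have a solution -/
theorem posL_zeroSum (m N : ℕ) (j : Fin m) (i : Fin N × Fin N) : HasZeroSum (posL m N j i) := by
  have h1 := i.1.2
  have h2 := i.2.2
  have m1 : (4 * N + (i.1 : ℕ) : ℤ) ∈ pos N i := mem_pos.2 (Or.inl rfl)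
  have m2 : (8 * N + (i.2 : ℕ) : ℤ) ∈ pos N i := mem_pos.2 (Or.inr (Or.inl rfl))
  have m3 : (-(12 * N + ((i.1 : ℕ) + (i.2 : ℕ))) : ℤ) ∈ pos N i :=
    mem_pos.2 (Or.inr (Or.inr rfl))
  refine ⟨_, mem_posL.2 m1, _, mem_posL.2 m2, _, mem_posL.2 m3, ?_, ?_, ?_, ?_⟩
  · intro h
    have := lev_inj j.2 h
    omega
  · intro h
    have := lev_inj j.2 h
    omega
  · intro h
    have := lev_inj j.2 h
    omega
  · unfold lev
    have e1 : off m N j (4 * N + (i.1 : ℕ)) = (j : ℕ) := by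
      unfold off
      rw [if_neg (by omega), if_pos (by omega)]
    have e2 : off m N j (8 * N + (i.2 : ℕ)) = m * (j : ℕ) := by
      unfold off
      rw [if_neg (by omega), if_neg (by omega)]
    have e3 : off m N j (-(12 * N + ((i.1 : ℕ) + (i.2 : ℕ)))) = -((j : ℕ) + m * (j : ℕ)) := by
      unfold off
      rw [if_pos (by omega)]
    rw [e1, e2, e3]
    ring

theorem HasZeroSum.mono {S S' : Finset ℤ} (h : S ⊆ S') (hS : HasZeroSum S) : HasZeroSum S' := by
  obtain ⟨a, ha, b, hb, c, hc, h'⟩ := hS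
  exact ⟨a, h ha, b, h hb, c, h hc, h'⟩

/-- all relevant integers -/
def allL (m N : ℕ) : Finset ℤ := univ.biUnion fun j : Fin m => relL m N j

theorem card_allL (m N : ℕ) : (allL m N).card ≤ m * (4 * N) := by
  unfold allL
  refine (card_biUnion_le_card_mul _ _ (4 * N) fun j _ => card_image_le.trans (card_rel N)).trans
    (le_of_eq ?_)
  rw [card_univ, Fintype.card_fin]

theorem allL_bound {m N : ℕ} {x : ℤ} (hx : x ∈ allL m N) :
    |x| ≤ 4 * (m : ℤ) ^ 2 * (14 * N) + (m : ℤ) ^ 2 := by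
  unfold allL relL at hx
  rw [mem_biUnion] at hx
  obtain ⟨j, -, hx⟩ := hx
  obtain ⟨u, hu, rfl⟩ := mem_image.1 hx
  have h1 := rel_bound hu
  have h2 := off_bound (N := N) j.2 u
  have h3 : (0 : ℤ) ≤ 4 * (m : ℤ) ^ 2 := by positivity
  have h4 := mul_le_mul_of_nonneg_left h1.1 h3
  have h5 := mul_le_mul_of_nonneg_left h1.2 h3
  unfold lev
  rw [abs_le]
  constructor <;> linarith

theorem Bg_subset (m N r : ℕ) (j : ℕ) (ω : Fin m → Fin (3 * r) → Om p) :
    Bg (negL m N r) j ω ⊆ allL m N := by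
  intro x hx
  rw [mem_Bg] at hx
  obtain ⟨i, -, hx⟩ := hx
  exact mem_biUnion.2 ⟨i, mem_univ _, negL_subset m N r i _ hx⟩

theorem posL_subset_all (m N : ℕ) (j : Fin m) (i : Fin N × Fin N) : posL m N j i ⊆ allL m N :=
  fun _ hx => mem_biUnion.2 ⟨j, mem_univ _, posL_subset m N j i hx⟩

end Pool.Agent.Helper90K9.NG
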