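import Mathlib
import Pool.Agent.Helper54K9.Mono.Main
import Pool.Agent.Helper90K9.NG.Lev

/-!
# The lower bound for random circuits with few negations for 3SUM
-/

set_option autoImplicit false
set_option linter.unusedSectionVars false
set_option linter.unusedDecidableInType false

namespace Pool.Agent.Helper90K9.NG

open Finset Helper54K9.Mono

open Classical in
/-- The random circuit which is `C γ` with probability `w γ` decides with error probability at most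
`1 / 3` whether a set of at most `n` integers in `[-W, W]` contains three different elements with
sum zero. -/
def Decides {κ : ℕ} (n W : ℕ) {Γ : Type} [Fintype Γ] (w : Γ → ℝ)
    (C : Γ → NegCircuit κ (Set.Icc (-(W : ℤ)) W)) : Prop :=
  ∀ S : Finset ℤ, (∀ a ∈ S, a ∈ Set.Icc (-(W : ℤ)) W) → S.card ≤ n →
    (HasZeroSum S → ∑ γ, (if (C γ).Accepts S then 0 else w γ) ≤ 1 / 3) ∧
      (¬ HasZeroSum S → ∑ γ, (if (C γ).Accepts S then w γ else 0) ≤ 1 / 3)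

section

variable {V : Type*} [DecidableEq V] {κ : ℕ} {U : Set V} {ι Ω : Type*} [Fintype ι] [Fintype Ω]
  [DecidableEq ι] [DecidableEq Ω] {m : ℕ}
  {P : Fin m → ι → Finset V} {T : Fin m → Ω → Finset V} {R : Fin m → Finset V}

open Classical in
/-- the estimate for one circuit with negations -/
theorem neg_count {s D N : ℕ} (hP : ∀ j i, (P j i).Nonempty) (hPR : ∀ j i, P j i ⊆ R j)
    (hs : 1 ≤ s)
    (h1 : ∀ j x y, x ≠ y → (univ.filter (fun i => x ∈ P j i ∧ y ∈ P j i)).card ≤ 1)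
    (h2 : ∀ j x, (univ.filter (fun i => x ∈ P j i)).card ≤ N)
    (h3 : ∀ j, ∀ I ⊆ R j, s < I.card → D * (univ.filter (fun a => Disjoint (T j a) I)).card ≤
      Fintype.card Ω) (C : NegCircuit κ U) (t : ℕ) (ht : C.neg.card ≤ t) :
    D * ∑ ω, ∑ j, sep P T C.Accepts ω j ≤ 2 ^ (t + 1) * (Fintype.card (Fin m → Ω) *
      (D * (m * (C.size * ((κ ^ 2 + 1) * s ^ 2) + s * N)) +
        Fintype.card ι * (D + m * C.size))) := by
  obtain ⟨F, hF1, hF2⟩ := cover C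
  set 𝒜 := (insert C.size (C.neg.filter (· < C.size))).powerset with h𝒜
  have hcard : 𝒜.card ≤ 2 ^ (t + 1) := by
    rw [h𝒜, card_powerset]
    refine Nat.pow_le_pow_right (by norm_num) ((card_insert_le _ _).trans ?_)
    exact Nat.add_le_add_right ((card_filter_le _ _).trans ht) 1
  have hpt : ∀ ω j, sep P T C.Accepts ω j ≤ ∑ A ∈ 𝒜, sep P T (F A).Accepts ω j := by
    intro ω j
    unfold sep
    refine (card_le_card (t := 𝒜.biUnion fun A => univ.filter (fun i : ι =>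
      ¬ (F A).Accepts (Bg T j ω) ∧ (F A).Accepts (Bg T j ω ∪ P j i))) fun i hi => ?_).trans
      card_biUnion_le
    rw [mem_filter] at hi
    obtain ⟨A, hA, h4, h5⟩ := hF2 _ _ subset_union_left hi.2.1 hi.2.2
    rw [mem_biUnion]
    exact ⟨A, hA, mem_filter.2 ⟨mem_univ _, h4, h5⟩⟩
  have hall : ∀ A ∈ 𝒜, D * ∑ ω, ∑ j, sep P T (F A).Accepts ω j ≤ Fintype.card (Fin m → Ω) *
      (D * (m * (C.size * ((κ ^ 2 + 1) * s ^ 2) + s * N)) +
        Fintype.card ι * (D + m * C.size)) := by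
    intro A _
    refine (sep_count hP hPR hs h1 h2 h3 (F A)).trans ?_
    have := hF1 A
    gcongr
  calc D * ∑ ω, ∑ j, sep P T C.Accepts ω j
      ≤ D * ∑ ω, ∑ j, ∑ A ∈ 𝒜, sep P T (F A).Accepts ω j :=
        Nat.mul_le_mul_left _ (sum_le_sum fun ω _ => sum_le_sum fun j _ => hpt ω j)
    _ = ∑ A ∈ 𝒜, D * ∑ ω, ∑ j, sep P T (F A).Accepts ω j := by
        rw [← mul_sum]
        congr 1
        calc ∑ ω, ∑ j, ∑ A ∈ 𝒜, sep P T (F A).Accepts ω j
            = ∑ ω, ∑ A ∈ 𝒜, ∑ j, sep P T (F A).Accepts ω j :=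
              sum_congr rfl fun ω _ => sum_comm
          _ = _ := sum_comm
    _ ≤ ∑ _A ∈ 𝒜, Fintype.card (Fin m → Ω) *
      (D * (m * (C.size * ((κ ^ 2 + 1) * s ^ 2) + s * N)) +
        Fintype.card ι * (D + m * C.size)) := sum_le_sum hall
    _ = 𝒜.card * (Fintype.card (Fin m → Ω) *
      (D * (m * (C.size * ((κ ^ 2 + 1) * s ^ 2) + s * N)) +
        Fintype.card ι * (D + m * C.size))) := by rw [sum_const, smul_eq_mul]
    _ ≤ _ := Nat.mul_le_mul_right _ hcard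

end

/-- the estimate in terms of `N`, `r` and the number `m` of levels -/
theorem estimate {κ : ℕ} (n W N r t m : ℕ) (hN : 1 ≤ N) (hm : m = 12 * 2 ^ t)
    (hn : 57 * m ^ 2 * N ≤ n) (hnW : n ≤ W) (hr : N ^ 2 ≤ 2 ^ (r ^ 2))
    {Γ : Type} [Fintype Γ] (w : Γ → ℝ) (hw : ∀ γ, 0 ≤ w γ) (hw1 : ∑ γ, w γ = 1)
    (C : Γ → NegCircuit κ (Set.Icc (-(W : ℤ)) W)) (ht : ∀ γ, (C γ).neg.card ≤ t)
    (hC : Decides n W w C) :
    (N : ℝ) ^ 2 ≤ 4 * (m : ℝ) ^ 2 * (((κ : ℝ) ^ 2 + 1) * (3 * (8 ^ (3 * r) * 2 ^ (r + 7))) ^ 2) *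
      (∑ γ, w γ * (C γ).size + 1) := by
  classical
  obtain ⟨p, hple, hp⟩ := Nat.exists_infinite_primes (2 * N + 5)
  have _ : Fact p.Prime := ⟨hp⟩
  set s : ℕ := 3 * (8 ^ (3 * r) * 2 ^ (r + 7)) with hs
  have hs1 : 1 ≤ s := by
    rw [hs]
    exact Nat.mul_pos (by norm_num) (by positivity)
  set D : ℕ := 2 ^ (r ^ 2) with hD
  have hm1 : 1 ≤ m := by rw [hm]; exact Nat.mul_pos (by norm_num) (by positivity)
  have hsub : ∀ S ⊆ allL m N, (∀ a ∈ S, a ∈ Set.Icc (-(W : ℤ)) W) ∧ S.card ≤ n := by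
    intro S hS
    refine ⟨fun a ha => ?_, ?_⟩
    · have h1 := allL_bound (hS ha)
      have h2 : (57 : ℤ) * (m : ℤ) ^ 2 * N ≤ W := by exact_mod_cast hn.trans hnW
      have h3 : (1 : ℤ) ≤ N := by exact_mod_cast hN
      have h4 : (m : ℤ) ^ 2 * 1 ≤ (m : ℤ) ^ 2 * N := mul_le_mul_of_nonneg_left h3 (by positivity)
      rw [abs_le] at h1
      constructor <;> nlinarith
    · refine (card_le_card hS).trans ((card_allL m N).trans (le_trans ?_ hn))
      have : m * 1 ≤ m * m := Nat.mul_le_mul_left _ hm1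
      calc m * (4 * N) = 4 * (m * 1) * N := by ring
        _ ≤ 4 * (m * m) * N := by gcongr
        _ ≤ 57 * m ^ 2 * N := by
            have h5 : 4 * (m * m) ≤ 57 * m ^ 2 := by nlinarith
            exact Nat.mul_le_mul_right _ h5
  let P : Fin m → Fin N × Fin N → Finset ℤ := posL m N
  let T : Fin m → (Fin (3 * r) → Om p) → Finset ℤ := negL m N r
  -- one circuit
  have hone : ∀ γ, D * ∑ ω, ∑ j, sep P T (C γ).Accepts ω j ≤ 2 ^ (t + 1) *
      (Fintype.card (Fin m → Fin (3 * r) → Om p) *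
      (D * (m * ((C γ).size * ((κ ^ 2 + 1) * s ^ 2) + s * N)) +
        Fintype.card (Fin N × Fin N) * (D + m * (C γ).size))) := fun γ =>
    neg_count (P := P) (T := T) (R := relL m N) (posL_nonempty m N) (posL_subset m N) hs1
      (posL_pair m N) (posL_one m N)
      (fun j I hI hcard => negL_hit m N r j (by omega) (by omega) I hI hcard) (C γ) t (ht γ)
  -- every pair is separated with probability 1/3
  have hsep : ∀ (ω : Fin m → Fin (3 * r) → Om p) (j : Fin m) (i : Fin N × Fin N),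
      (1 : ℝ) / 3 ≤ ∑ γ, w γ * (if ¬ (C γ).Accepts (Bg T j ω) ∧
        (C γ).Accepts (Bg T j ω ∪ P j i) then 1 else 0) := by
    intro ω j i
    have s1 := hsub _ (Bg_subset m N r j ω)
    have s2 := hsub (Bg T j ω ∪ P j i) (union_subset (Bg_subset m N r j ω)
      (posL_subset_all m N j i))
    have e1 := (hC _ s1.1 s1.2).2 (Bg_not m N r j ω)
    have e2 := (hC _ s2.1 s2.2).1 (HasZeroSum.mono subset_union_right (posL_zeroSum m N j i))
    have e3 : (1 : ℝ) ≤ ∑ γ, (if (C γ).Accepts (Bg T j ω) then w γ else 0) +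
        ∑ γ, (if (C γ).Accepts (Bg T j ω ∪ P j i) then 0 else w γ) +
        ∑ γ, w γ * (if ¬ (C γ).Accepts (Bg T j ω) ∧
        (C γ).Accepts (Bg T j ω ∪ P j i) then 1 else 0) := by
      rw [← sum_add_distrib, ← sum_add_distrib]
      refine (le_of_eq hw1.symm).trans (sum_le_sum fun γ _ => ?_)
      have := hw γ
      by_cases c1 : (C γ).Accepts (Bg T j ω) <;>
        by_cases c2 : (C γ).Accepts (Bg T j ω ∪ P j i) <;> simp [c1, c2, this]
    have e1' : ∑ γ, (if (C γ).Accepts (Bg T j ω) then w γ else 0) ≤ 1 / 3 := e1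
    linarith
  set Wn : ℕ := Fintype.card (Fin m → Fin (3 * r) → Om p) with hWn
  have hWn0 : 0 < Wn := Fintype.card_pos
  have hlow : (1 : ℝ) / 3 * (Wn * (m * (N : ℝ) ^ 2)) ≤
      ∑ γ, w γ * ((∑ ω, ∑ j, sep P T (C γ).Accepts ω j : ℕ) : ℝ) := by
    have e1 : ∀ γ, ((∑ ω, ∑ j, sep P T (C γ).Accepts ω j : ℕ) : ℝ) =
        ∑ ω : Fin m → Fin (3 * r) → Om p, ∑ j : Fin m, ∑ i : Fin N × Fin N,
          (if ¬ (C γ).Accepts (Bg T j ω) ∧ (C γ).Accepts (Bg T j ω ∪ P j i) then (1 : ℝ)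
            else 0) := by
      intro γ
      push_cast
      refine sum_congr rfl fun ω _ => sum_congr rfl fun j _ => ?_
      unfold sep
      rw [card_filter]
      push_cast
      rfl
    have e2 : ∑ γ, w γ * ((∑ ω, ∑ j, sep P T (C γ).Accepts ω j : ℕ) : ℝ) =
        ∑ ω : Fin m → Fin (3 * r) → Om p, ∑ j : Fin m, ∑ i : Fin N × Fin N, ∑ γ, w γ *
          (if ¬ (C γ).Accepts (Bg T j ω) ∧ (C γ).Accepts (Bg T j ω ∪ P j i) then (1 : ℝ)
            else 0) := by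
      simp_rw [e1, mul_sum]
      rw [sum_comm]
      refine sum_congr rfl fun ω _ => ?_
      rw [sum_comm]
      refine sum_congr rfl fun j _ => ?_
      rw [sum_comm]
    rw [e2]
    have e3 : ∑ _ω : Fin m → Fin (3 * r) → Om p, ∑ _j : Fin m, ∑ _i : Fin N × Fin N,
        ((1 : ℝ) / 3) = (1 : ℝ) / 3 * (Wn * (m * (N : ℝ) ^ 2)) := by
      simp only [sum_const, card_univ, nsmul_eq_mul, Fintype.card_prod, Fintype.card_fin]
      rw [← hWn]
      push_cast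
      ring
    rw [← e3]
    exact sum_le_sum fun ω _ => sum_le_sum fun j _ => sum_le_sum fun i _ => hsep ω j i
  -- the average
  set K : ℝ := ((κ : ℝ) ^ 2 + 1) * (s : ℝ) ^ 2 with hK
  set X : ℝ := ∑ γ, w γ * ((C γ).size : ℝ) with hX
  have hX0 : 0 ≤ X := sum_nonneg fun γ _ => mul_nonneg (hw γ) (Nat.cast_nonneg _)
  have hup : (D : ℝ) * ∑ γ, w γ * ((∑ ω, ∑ j, sep P T (C γ).Accepts ω j : ℕ) : ℝ) ≤
      2 ^ (t + 1) * (Wn * (D * (m * (X * K + s * N)) + (N : ℝ) ^ 2 * (D + m * X))) := by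
    rw [mul_sum]
    have e1 : ∀ γ, (D : ℝ) * (w γ * ((∑ ω, ∑ j, sep P T (C γ).Accepts ω j : ℕ) : ℝ)) ≤
        w γ * (2 ^ (t + 1) * (Wn * (D * (m * ((C γ).size * K + s * N)) +
          (N : ℝ) ^ 2 * (D + m * (C γ).size)))) := by
      intro γ
      have h1 : (D : ℝ) * ((∑ ω, ∑ j, sep P T (C γ).Accepts ω j : ℕ) : ℝ) ≤
          2 ^ (t + 1) * (Wn * (D * (m * ((C γ).size * (((κ : ℝ) ^ 2 + 1) * (s : ℝ) ^ 2) + s * N)) +
          ((N * N : ℕ) : ℝ) * (D + m * (C γ).size))) := by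
        have h2 := hone γ
        rw [Fintype.card_prod, Fintype.card_fin] at h2
        exact_mod_cast h2
      calc (D : ℝ) * (w γ * ((∑ ω, ∑ j, sep P T (C γ).Accepts ω j : ℕ) : ℝ)) =
          w γ * ((D : ℝ) * ((∑ ω, ∑ j, sep P T (C γ).Accepts ω j : ℕ) : ℝ)) := by ring
        _ ≤ w γ * (2 ^ (t + 1) * (Wn * (D * (m * ((C γ).size * (((κ : ℝ) ^ 2 + 1) *
              (s : ℝ) ^ 2) + s * N)) + ((N * N : ℕ) : ℝ) * (D + m * (C γ).size)))) :=
            mul_le_mul_of_nonneg_left h1 (hw γ)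
        _ = _ := by rw [hK]; push_cast; ring
    refine (sum_le_sum fun γ _ => e1 γ).trans (le_of_eq ?_)
    have e2 : ∀ γ, w γ * (2 ^ (t + 1) * ((Wn : ℝ) * (D * (m * ((C γ).size * K + s * N)) +
          (N : ℝ) ^ 2 * (D + m * (C γ).size)))) =
        (w γ * ((C γ).size : ℝ)) * (2 ^ (t + 1) * (Wn * (D * (m * K) + (N : ℝ) ^ 2 * m))) +
        w γ * (2 ^ (t + 1) * (Wn * (D * (m * (s * N)) + (N : ℝ) ^ 2 * D))) := fun γ => by ring
    simp_rw [e2]
    rw [sum_add_distrib, ← sum_mul, ← sum_mul, hw1, ← hX]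
    ring
  -- conclusion
  have hNR : (0 : ℝ) < N := by exact_mod_cast hN
  have hsR : (1 : ℝ) ≤ s := by exact_mod_cast hs1
  have hDR : (0 : ℝ) < D := by rw [hD]; positivity
  have hDN : (N : ℝ) ^ 2 ≤ D := by exact_mod_cast hr
  have hmR : (1 : ℝ) ≤ m := by exact_mod_cast hm1
  have hmt : (m : ℝ) = 12 * 2 ^ t := by rw [hm]; push_cast; ring
  have hWR : (0 : ℝ) < Wn := by exact_mod_cast hWn0
  have hs2 : (1 : ℝ) ≤ (s : ℝ) ^ 2 := one_le_pow₀ hsR
  have hKs : (s : ℝ) ^ 2 ≤ K := by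
    rw [hK]
    nlinarith [sq_nonneg (κ : ℝ)]
  have hK1 : 1 ≤ K := hs2.trans hKs
  have hcomb : (D : ℝ) * ((1 : ℝ) / 3 * (Wn * (m * (N : ℝ) ^ 2))) ≤
      2 ^ (t + 1) * (Wn * (D * (m * (X * K + s * N)) + (N : ℝ) ^ 2 * (D + m * X))) :=
    (mul_le_mul_of_nonneg_left hlow hDR.le).trans hup
  have hstep : (D : ℝ) * (m * Wn) * ((N : ℝ) ^ 2) ≤
      (D : ℝ) * (m * Wn) * (m * (2 * (X * K) + s * N)) := by
    have e1 : (N : ℝ) ^ 2 * (m * X) ≤ D * (m * (X * K)) := by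
      have : X ≤ X * K := le_mul_of_one_le_right hX0 hK1
      calc (N : ℝ) ^ 2 * (m * X) ≤ D * (m * X) :=
            mul_le_mul_of_nonneg_right hDN (by positivity)
        _ ≤ D * (m * (X * K)) := by gcongr
    have e2 : (2 : ℝ) ^ (t + 1) = m / 6 := by rw [hmt, pow_succ]; ring
    rw [e2] at hcomb
    have e3 : (m : ℝ) / 6 * (Wn * (D * (m * (X * K + s * N)) + (N : ℝ) ^ 2 * (D + m * X))) ≤
        (m : ℝ) / 6 * (Wn * (D * (m * (X * K + s * N)) + (N : ℝ) ^ 2 * D +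
          D * (m * (X * K)))) := by
      refine mul_le_mul_of_nonneg_left (mul_le_mul_of_nonneg_left ?_ hWR.le) (by positivity)
      rw [mul_add ((N : ℝ) ^ 2)]
      linarith
    have e4 := hcomb.trans e3
    nlinarith
  have hkey : (N : ℝ) ^ 2 ≤ m * (2 * (X * K) + s * N) :=
    le_of_mul_le_mul_left hstep (by positivity)
  have hcast : (s : ℝ) = 3 * (8 ^ (3 * r) * 2 ^ (r + 7)) := by rw [hs]; push_cast; ring
  rw [← hcast, ← hK]
  have hXK : 0 ≤ X * K := mul_nonneg hX0 (by linarith)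
  have hmm : (m : ℝ) ≤ (m : ℝ) ^ 2 := by nlinarith
  rcases le_or_gt (2 * ((m : ℝ) * s)) N with hbig | hsmall
  · have h3 : 2 * ((m : ℝ) * s) * N ≤ N * N := mul_le_mul_of_nonneg_right hbig hNR.le
    have h4 : (N : ℝ) ^ 2 ≤ 4 * m * (X * K) := by nlinarith
    have h5 : 4 * (m : ℝ) * (X * K) ≤ 4 * (m : ℝ) ^ 2 * (X * K) := by gcongr
    have h6 : 4 * (m : ℝ) ^ 2 * K * (X + 1) = 4 * (m : ℝ) ^ 2 * (X * K) + 4 * (m : ℝ) ^ 2 * K := by
      ring
    rw [h6]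
    have h7 : 0 ≤ 4 * (m : ℝ) ^ 2 * K := by positivity
    linarith
  · have h3 : (N : ℝ) ^ 2 ≤ (2 * ((m : ℝ) * s)) ^ 2 := pow_le_pow_left₀ hNR.le hsmall.le 2
    have h4 : (2 * ((m : ℝ) * s)) ^ 2 = 4 * (m : ℝ) ^ 2 * (s : ℝ) ^ 2 := by ring
    have h5 : 4 * (m : ℝ) ^ 2 * (s : ℝ) ^ 2 ≤ 4 * (m : ℝ) ^ 2 * K := by gcongr
    have h6 : 4 * (m : ℝ) ^ 2 * K ≤ 4 * (m : ℝ) ^ 2 * K * (X + 1) :=
      le_mul_of_one_le_right (by positivity) (by linarith)
    linarith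

/-- **The lower bound.** -/
theorem lower_bound {κ : ℕ} (n W t : ℕ) (hn : 1 ≤ n) (hnW : n ≤ W)
    {Γ : Type} [Fintype Γ] (w : Γ → ℝ) (hw : ∀ γ, 0 ≤ w γ) (hw1 : ∑ γ, w γ = 1)
    (C : Γ → NegCircuit κ (Set.Icc (-(W : ℤ)) W)) (ht : ∀ γ, (C γ).neg.card ≤ t)
    (hC : Decides n W w C) :
    (n : ℝ) ^ 2 ≤ ((κ : ℝ) ^ 2 + 1) * 2 ^ (6 * t + 29 * √(Real.logb 2 n) + 75) *
      (∑ γ, w γ * (C γ).size + 1) := by
  have hT0 : 0 ≤ ∑ γ, w γ * ((C γ).size : ℝ) :=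
    sum_nonneg fun γ _ => mul_nonneg (hw γ) (Nat.cast_nonneg _)
  have hκ : (1 : ℝ) ≤ (κ : ℝ) ^ 2 + 1 := by nlinarith [sq_nonneg (κ : ℝ)]
  set ℓ : ℝ := Real.logb 2 n with hℓ
  have hsq0 : 0 ≤ √ℓ := Real.sqrt_nonneg _
  have htR : (0 : ℝ) ≤ t := Nat.cast_nonneg _
  set m : ℕ := 12 * 2 ^ t with hm
  have hmR : (m : ℝ) = 12 * 2 ^ t := by rw [hm]; push_cast; ring
  rcases Nat.lt_or_ge n (57 * m ^ 2) with hsmall | hbig
  · have h1 : (n : ℝ) ≤ 57 * (m : ℝ) ^ 2 := by exact_mod_cast hsmall.le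
    have h2 : (n : ℝ) ^ 2 ≤ (57 * (m : ℝ) ^ 2) ^ 2 := pow_le_pow_left₀ (Nat.cast_nonneg _) h1 2
    have h3 : (57 * (m : ℝ) ^ 2) ^ 2 = 67371264 * 2 ^ (4 * t) := by
      rw [hmR]
      rw [show 4 * t = t * 4 by ring, pow_mul]
      ring
    have h4 : (67371264 : ℝ) * 2 ^ (4 * t) ≤ 2 ^ (6 * t + 29 * √ℓ + 75) := by
      calc (67371264 : ℝ) * 2 ^ (4 * t) ≤ 2 ^ 27 * 2 ^ (4 * t) := by
            refine mul_le_mul_of_nonneg_right (by norm_num) (by positivity)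
        _ = 2 ^ (((4 * t + 27 : ℕ)) : ℝ) := by
            rw [Real.rpow_natCast, ← pow_add]; congr 1; ring
        _ ≤ 2 ^ (6 * t + 29 * √ℓ + 75) := by
            refine Real.rpow_le_rpow_of_exponent_le (by norm_num) ?_
            push_cast
            linarith
    calc (n : ℝ) ^ 2 ≤ 2 ^ (6 * t + 29 * √ℓ + 75) := by linarith
      _ ≤ ((κ : ℝ) ^ 2 + 1) * 2 ^ (6 * t + 29 * √ℓ + 75) :=
          le_mul_of_one_le_left (by positivity) hκ
      _ ≤ _ := le_mul_of_one_le_right (by positivity) (by linarith)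
  · have hm1 : 1 ≤ m := by rw [hm]; exact Nat.mul_pos (by norm_num) (by positivity)
    have hm2 : 1 ≤ m ^ 2 := Nat.one_le_pow _ _ hm1
    have hq : 0 < 57 * m ^ 2 := by omega
    set N := n / (57 * m ^ 2) with hN
    have hN1 : 1 ≤ N := (Nat.one_le_div_iff hq).2 hbig
    have hNn : 57 * m ^ 2 * N ≤ n := Nat.mul_div_le n _
    have hnN' : n ≤ 114 * m ^ 2 * N := by
      have h1 : n < 57 * m ^ 2 * (N + 1) := Nat.lt_mul_div_succ n hq
      have h2 : 57 * m ^ 2 * 1 ≤ 57 * m ^ 2 * N := Nat.mul_le_mul_left _ hN1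
      nlinarith
    set r := Nat.sqrt (2 * (Nat.log 2 N + 1)) + 1 with hr
    have hr2 : N ^ 2 ≤ 2 ^ (r ^ 2) := by
      have h1 : N < 2 ^ (Nat.log 2 N + 1) := Nat.lt_pow_succ_log_self (by norm_num) N
      have h2 : 2 * (Nat.log 2 N + 1) < r ^ 2 := by
        rw [hr, pow_two]
        exact Nat.lt_succ_sqrt _
      calc N ^ 2 ≤ (2 ^ (Nat.log 2 N + 1)) ^ 2 := Nat.pow_le_pow_left h1.le 2
        _ = 2 ^ (2 * (Nat.log 2 N + 1)) := by rw [← pow_mul]; congr 1; ring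
        _ ≤ 2 ^ (r ^ 2) := Nat.pow_le_pow_right (by norm_num) h2.le
    have hest := estimate n W N r t m hN1 hm hNn hnW hr2 w hw hw1 C ht hC
    have hnN : (n : ℝ) ≤ 114 * (m : ℝ) ^ 2 * N := by exact_mod_cast hnN'
    have hNR : (0 : ℝ) < N := by exact_mod_cast hN1
    have hnR : (0 : ℝ) < n := by exact_mod_cast hn
    have hrle : 20 * (r : ℝ) ≤ 29 * √ℓ + 20 := by
      have h1 : ((Nat.sqrt (2 * (Nat.log 2 N + 1)) : ℕ) : ℝ) ≤
          √((2 * (Nat.log 2 N + 1) : ℕ) : ℝ) := Real.nat_sqrt_le_real_sqrt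
      have h2 : (Nat.log 2 N : ℝ) + 1 ≤ ℓ := by
        have h3 : 2 ^ (Nat.log 2 N) ≤ N := Nat.pow_log_le_self 2 (by omega)
        have h4 : 2 ^ (Nat.log 2 N + 1) ≤ n := by
          rw [pow_succ]
          nlinarith
        rw [hℓ, Real.le_logb_iff_rpow_le (by norm_num) hnR]
        have h5 : ((Nat.log 2 N : ℝ) + 1) = ((Nat.log 2 N + 1 : ℕ) : ℝ) := by push_cast; ring
        rw [h5, Real.rpow_natCast]
        exact_mod_cast h4
      have h5 : √((2 * (Nat.log 2 N + 1) : ℕ) : ℝ) ≤ 29 / 20 * √ℓ := by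
        rw [show (29 / 20 : ℝ) * √ℓ = √(841 / 400 * ℓ) by
          rw [Real.sqrt_mul (by norm_num), show (841 / 400 : ℝ) = (29 / 20) ^ 2 by norm_num,
            Real.sqrt_sq (by norm_num)]]
        refine Real.sqrt_le_sqrt ?_
        push_cast
        have h6 : (0 : ℝ) ≤ (Nat.log 2 N : ℝ) + 1 := by positivity
        linarith
      have h6 : (r : ℝ) = ((Nat.sqrt (2 * (Nat.log 2 N + 1)) : ℕ) : ℝ) + 1 := by
        rw [hr]; push_cast; ring
      rw [h6]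
      linarith
    have hpow : 51984 * (m : ℝ) ^ 6 * (3 * (8 ^ (3 * r) * 2 ^ (r + 7))) ^ 2 ≤
        2 ^ (6 * t + 29 * √ℓ + 75) := by
      have e1 : ((3 : ℝ) * (8 ^ (3 * r) * 2 ^ (r + 7))) ^ 2 = 9 * 2 ^ (20 * r + 14) := by
        rw [show (8 : ℝ) = 2 ^ 3 by norm_num, ← pow_mul, ← pow_add, mul_pow, ← pow_mul]
        norm_num
        ring
      have e2 : (m : ℝ) ^ 6 = 2985984 * 2 ^ (6 * t) := by
        rw [hmR, mul_pow, ← pow_mul]
        norm_num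
        ring
      rw [e1, e2]
      calc (51984 : ℝ) * (2985984 * 2 ^ (6 * t)) * (9 * 2 ^ (20 * r + 14)) =
            (51984 * 2985984 * 9) * (2 ^ (6 * t) * 2 ^ (20 * r + 14)) := by ring
        _ ≤ 2 ^ 41 * (2 ^ (6 * t) * 2 ^ (20 * r + 14)) := by
            refine mul_le_mul_of_nonneg_right (by norm_num) (by positivity)
        _ = 2 ^ (((6 * t + 20 * r + 55 : ℕ)) : ℝ) := by
            rw [Real.rpow_natCast, ← pow_add, ← pow_add]; congr 1; ring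
        _ ≤ 2 ^ (6 * t + 29 * √ℓ + 75) := by
            refine Real.rpow_le_rpow_of_exponent_le (by norm_num) ?_
            push_cast
            linarith
    calc (n : ℝ) ^ 2 ≤ (114 * (m : ℝ) ^ 2 * N) ^ 2 := pow_le_pow_left₀ hnR.le hnN 2
      _ = 12996 * (m : ℝ) ^ 4 * (N : ℝ) ^ 2 := by ring
      _ ≤ 12996 * (m : ℝ) ^ 4 * (4 * (m : ℝ) ^ 2 * (((κ : ℝ) ^ 2 + 1) *
            (3 * (8 ^ (3 * r) * 2 ^ (r + 7))) ^ 2) * (∑ γ, w γ * (C γ).size + 1)) :=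
          mul_le_mul_of_nonneg_left hest (by positivity)
      _ = ((κ : ℝ) ^ 2 + 1) * (51984 * (m : ℝ) ^ 6 * (3 * (8 ^ (3 * r) * 2 ^ (r + 7))) ^ 2) *
            (∑ γ, w γ * (C γ).size + 1) := by ring
      _ ≤ _ := by
          refine mul_le_mul_of_nonneg_right ?_ (by linarith)
          exact mul_le_mul_of_nonneg_left hpow (by linarith)

end Pool.Agent.Helper90K9.NG
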