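import Mathlib
import Pool.Agent.Helper90K9.NG.Circ
import Pool.Agent.Helper54K9.Mono.Tests

/-!
# With `log₂ n + O(1)` negations `O(n)` gates are enough
-/

set_option autoImplicit false
set_option linter.unusedSectionVars false
set_option linter.unusedDecidableInType false

namespace Pool.Agent.Helper90K9.NG

open Finset Helper54K9.Mono

variable {V : Type*} [DecidableEq V]

/-- all functions in `F` can be computed with `n` gates, at most `τ` of them negations -/
def Bld (κ : ℕ) (U : Set V) (n τ : ℕ) (F : Set (Finset V → ℝ)) : Prop :=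
  ∃ (g : ℕ → Finset V → ℝ) (neg : Finset ℕ), neg.card ≤ τ ∧
    (∀ i < n, i ∉ neg → Gate κ (Avail U g i) (g i)) ∧
    (∀ i < n, i ∈ neg → ∃ u, Avail U g i u ∧ g i = fun S => if 0 < u S then 0 else 1) ∧
    (∀ q ∈ neg, q < n) ∧ ∀ f ∈ F, Avail U g n f

variable {κ : ℕ} {U : Set V}

theorem avail_up {g : ℕ → Finset V → ℝ} {n : ℕ} {f u : Finset V → ℝ} (h : Avail U g n u) :
    Avail U (Function.update g n f) n u :=
  Avail.congr (fun j hj => by rw [Function.update_of_ne (by omega)]) h

theorem avail_up' {g : ℕ → Finset V → ℝ} {n i : ℕ} (hi : i ≤ n) {f u : Finset V → ℝ}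
    (h : Avail U g i u) : Avail U (Function.update g n f) i u :=
  Avail.congr (fun j hj => by rw [Function.update_of_ne (by omega)]) h

theorem avail_succ {g : ℕ → Finset V → ℝ} {n : ℕ} {u : Finset V → ℝ} (h : Avail U g n u) :
    Avail U g (n + 1) u := by
  cases h with
  | const c => exact Avail.const c
  | input v hv => exact Avail.input v hv
  | gate j hj => exact Avail.gate j (by omega)

theorem Bld.sub {n τ : ℕ} {F F' : Set (Finset V → ℝ)} (h : Bld κ U n τ F) (hF : F' ⊆ F) :
    Bld κ U n τ F' := by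
  obtain ⟨g, neg, h1, h2, h3, h4, h5⟩ := h
  exact ⟨g, neg, h1, h2, h3, h4, fun f hf => h5 f (hF hf)⟩

/-- the functions which may be used -/
def Use (U : Set V) (F : Set (Finset V → ℝ)) (u : Finset V → ℝ) : Prop :=
  u ∈ F ∨ (∃ c : ℝ, u = fun _ => c) ∨ ∃ v ∈ U, u = input v

theorem Bld.gate {n τ : ℕ} {F : Set (Finset V → ℝ)} (h : Bld κ U n τ F) {f : Finset V → ℝ}
    (hf : Gate κ (Use U F) f) : Bld κ U (n + 1) τ (insert f F) := by
  obtain ⟨g, neg, h1, h2, h3, h4, h5⟩ := h
  refine ⟨Function.update g n f, neg, h1, fun i hi hin => ?_, fun i hi hin => ?_,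
    fun q hq => (h4 q hq).trans (Nat.lt_succ_self _), ?_⟩
  · rcases Nat.lt_succ_iff_lt_or_eq.1 hi with h | rfl
    · rw [Function.update_of_ne (by omega)]
      exact Gate.imp (fun u hu => avail_up' h.le hu) (h2 i h hin)
    · rw [Function.update_self]
      refine Gate.imp (fun u hu => ?_) hf
      rcases hu with hu | ⟨c, rfl⟩ | ⟨v, hv, rfl⟩
      · exact avail_up (h5 u hu)
      · exact Avail.const c
      · exact Avail.input v hv
  · have hlt := h4 i hin
    rw [Function.update_of_ne (by omega)]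
    obtain ⟨u, hu1, hu2⟩ := h3 i hlt hin
    exact ⟨u, avail_up' hlt.le hu1, hu2⟩
  · intro u hu
    rcases hu with rfl | hu
    · have := Avail.gate (U := U) (g := Function.update g n u) (i := n + 1) n (by omega)
      rwa [Function.update_self] at this
    · exact avail_succ (avail_up (h5 u hu))

theorem Bld.not {n τ : ℕ} {F : Set (Finset V → ℝ)} (h : Bld κ U n τ F) {u : Finset V → ℝ}
    (hu : u ∈ F) : Bld κ U (n + 1) (τ + 1)
      (insert (fun S => if 0 < u S then (0 : ℝ) else 1) F) := by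
  obtain ⟨g, neg, h1, h2, h3, h4, h5⟩ := h
  set f : Finset V → ℝ := fun S => if 0 < u S then (0 : ℝ) else 1 with hf
  refine ⟨Function.update g n f, insert n neg, (card_insert_le _ _).trans (by omega),
    fun i hi hin => ?_, fun i hi hin => ?_, fun q hq => ?_, ?_⟩
  · rw [mem_insert, not_or] at hin
    have hlt : i < n := by omega
    rw [Function.update_of_ne (by omega)]
    exact Gate.imp (fun u hu => avail_up' hlt.le hu) (h2 i hlt hin.2)
  · rcases eq_or_ne i n with rfl | hne
    · rw [Function.update_self]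
      exact ⟨u, avail_up (h5 u hu), rfl⟩
    · rw [mem_insert] at hin
      have hin' := hin.resolve_left hne
      have hlt := h4 i hin'
      rw [Function.update_of_ne hne]
      obtain ⟨u, hu1, hu2⟩ := h3 i hlt hin'
      exact ⟨u, avail_up' hlt.le hu1, hu2⟩
  · rw [mem_insert] at hq
    rcases hq with rfl | hq
    · omega
    · exact (h4 q hq).trans (Nat.lt_succ_self _)
  · intro w hw
    rcases hw with rfl | hw
    · have := Avail.gate (U := U) (g := Function.update g n f) (i := n + 1) n (by omega)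
      rwa [Function.update_self] at this
    · exact avail_succ (avail_up (h5 w hw))

/-- a monotone function of two available functions -/
theorem Bld.two {n τ : ℕ} {F : Set (Finset V → ℝ)} (h : Bld 2 U n τ F) (φ : ℝ → ℝ → ℝ)
    (hφ : ∀ a a' b b', a ≤ a' → b ≤ b' → φ a b ≤ φ a' b') {u w : Finset V → ℝ}
    (hu : Use U F u) (hw : Use U F w) : Bld 2 U (n + 1) τ (insert (fun S => φ (u S) (w S)) F) := by
  refine h.gate ?_
  have hg := Gate.mono (κ := 2) (A := Use U F) (fun q => φ (q 0) (q 1))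
    (fun q q' hq => hφ _ _ _ _ (hq 0) (hq 1)) (fun j => if j = 0 then u else w) (fun j => by
      split_ifs
      · exact hu
      · exact hw)
  simpa using hg

/-- sums with nonnegative weights -/
theorem Bld.sum {n τ : ℕ} {F : Set (Finset V → ℝ)} (h : Bld 2 U n τ F) (a : V → ℝ)
    (ha : ∀ v, 0 ≤ a v) (L : Finset V) : (∀ v ∈ L, v ∈ U) →
    Bld 2 U (n + L.card) τ (insert (fun S => ∑ v ∈ L, a v * input v S) F) := by
  induction L using Finset.induction_on with
  | empty =>
    intro _
    obtain ⟨g, neg, h1, h2, h3, h4, h5⟩ := h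
    refine ⟨g, neg, h1, h2, h3, h4, fun f hf => ?_⟩
    rcases hf with rfl | hf
    · simp only [sum_empty]
      exact Avail.const 0
    · exact h5 f hf
  | insert v L hv ih =>
    intro hL
    have h1 := (ih fun v hv => hL v (mem_insert_of_mem hv)).two (fun x y => x + a v * y)
      (fun x x' y y' hx hy => add_le_add hx (mul_le_mul_of_nonneg_left hy (ha v)))
      (Or.inl (Set.mem_insert _ _)) (Or.inr (Or.inr ⟨v, hL v (mem_insert_self _ _), rfl⟩))
    rw [card_insert_of_notMem hv, ← Nat.add_assoc]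
    refine h1.sub ?_
    intro f hf
    rcases hf with rfl | hf
    · left
      funext S
      rw [sum_insert hv]
      ring
    · exact Or.inr (Or.inr hf)

/-- the digits of a number -/
theorem digit_step (c B : ℕ) (hB : 0 < B) : (c % B : ℕ) + (if B ≤ c % (2 * B) then B else 0) =
    c % (2 * B) := by
  have h1 : c % (2 * B) % B = c % B := Nat.mod_mod_of_dvd c ⟨2, by ring⟩
  have h2 : c % (2 * B) < 2 * B := Nat.mod_lt _ (by omega)
  rw [← h1]
  split_ifs with h
  · rw [Nat.mod_eq_sub_mod h, Nat.mod_eq_of_lt (by omega)]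
    omega
  · rw [Nat.mod_eq_of_lt (by omega)]
    omega

/-- the number of the variables in `L` -/
theorem sum_input (L S : Finset V) : ∑ v ∈ L, (1 : ℝ) * input v S = ((L ∩ S).card : ℝ) := by
  simp only [one_mul, input]
  rw [← sum_filter, sum_const, nsmul_eq_mul, mul_one, filter_mem_eq_inter]

/-- all digits, with one negation for each -/
theorem Bld.digits {n τ t : ℕ} {F : Set (Finset V → ℝ)} (h : Bld 2 U n τ F) (c : Finset V → ℕ)
    (hc : (fun S => (c S : ℝ)) ∈ F) (hct : ∀ S, c S < 2 ^ t) : ∀ j ≤ t,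
    Bld 2 U (n + 3 * j) (τ + j) (insert (fun S => ((2 : ℝ) ^ t - 2 ^ (t - j)) -
      ((c S : ℝ) - ((c S % 2 ^ (t - j) : ℕ) : ℝ))) F) := by
  intro j
  induction j with
  | zero =>
    intro _
    obtain ⟨g, neg, h1, h2, h3, h4, h5⟩ := h
    refine ⟨g, neg, h1, h2, h3, h4, fun f hf => ?_⟩
    rcases hf with rfl | hf
    · have : (fun S => ((2 : ℝ) ^ t - 2 ^ (t - 0)) -
          ((c S : ℝ) - ((c S % 2 ^ (t - 0) : ℕ) : ℝ))) = fun _ => (0 : ℝ) := by
        funext S
        rw [Nat.sub_zero, Nat.mod_eq_of_lt (hct S)]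
        ring
      rw [this]
      exact Avail.const 0
    · exact h5 f hf
  | succ j ih =>
    intro hj
    obtain ⟨B, hB⟩ : ∃ B, B = 2 ^ (t - (j + 1)) := ⟨_, rfl⟩
    have hB0 : 0 < B := by rw [hB]; positivity
    have hB2 : 2 ^ (t - j) = 2 * B := by
      rw [hB, ← pow_succ']
      congr 1
      omega
    have hBR : ((2 : ℝ) ^ (t - (j + 1))) = B := by rw [hB]; push_cast; ring
    have hB2R : ((2 : ℝ) ^ (t - j)) = 2 * B := by
      have : ((2 ^ (t - j) : ℕ) : ℝ) = ((2 * B : ℕ) : ℝ) := by rw [hB2]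
      push_cast at this
      exact this
    have h0 := ih (by omega)
    rw [hB2R, hB2] at h0
    set E : Finset V → ℝ := fun S => ((2 : ℝ) ^ t - 2 * B) -
      ((c S : ℝ) - ((c S % (2 * B) : ℕ) : ℝ)) with hE
    -- the threshold
    have h1 := h0.two (fun x y => x + y - (2 ^ t - B) + 1 / 2)
      (fun x x' y y' hx hy => by linarith) (Or.inl (Or.inr hc)) (Or.inl (Set.mem_insert _ _))
    have h2 := h1.not (Set.mem_insert _ _)
    have h3 := h2.two (fun x y => x + B * y) (fun x x' y y' hx hy =>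
      add_le_add hx (mul_le_mul_of_nonneg_left hy (Nat.cast_nonneg _)))
      (Or.inl (Or.inr (Or.inr (Set.mem_insert _ _)))) (Or.inl (Set.mem_insert _ _))
    have e : n + 3 * (j + 1) = n + 3 * j + 1 + 1 + 1 := by ring
    rw [e, ← Nat.add_assoc, hBR, ← hB]
    refine h3.sub ?_
    intro f hf
    rcases hf with rfl | hf
    · left
      funext S
      have hd := digit_step (c S) B hB0
      have hdR : ((c S % B : ℕ) : ℝ) + (if B ≤ c S % (2 * B) then (B : ℝ) else 0) =
          ((c S % (2 * B) : ℕ) : ℝ) := by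
        have := congrArg (fun x : ℕ => (x : ℝ)) hd
        push_cast at this
        exact_mod_cast this
      have hiff : 0 < (c S : ℝ) + E S - (2 ^ t - B) + 1 / 2 ↔ B ≤ c S % (2 * B) := by
        have e1 : (c S : ℝ) + E S - (2 ^ t - B) + 1 / 2 =
            ((c S % (2 * B) : ℕ) : ℝ) - B + 1 / 2 := by
          rw [hE]
          ring
        rw [e1]
        constructor
        · intro h
          by_contra hlt
          rw [not_le] at hlt
          have : ((c S % (2 * B) : ℕ) : ℝ) + 1 ≤ B := by exact_mod_cast hlt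
          linarith
        · intro h
          have : (B : ℝ) ≤ ((c S % (2 * B) : ℕ) : ℝ) := by exact_mod_cast h
          linarith
      by_cases hcase : B ≤ c S % (2 * B)
      · rw [if_pos (hiff.2 hcase)]
        rw [if_pos hcase] at hdR
        rw [hE]
        dsimp only
        linarith
      · rw [if_neg (fun hh => hcase (hiff.1 hh))]
        rw [if_neg hcase] at hdR
        rw [hE]
        dsimp only
        linarith
    · exact Or.inr (Or.inr (Or.inr (Or.inr hf)))

/-! ## The code of a set -/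

/-- the position of the integer `v` -/
def idx (W : ℕ) (v : ℤ) : ℕ := (v + W).toNat

/-- the code of a set of integers -/
def enc (W : ℕ) (S : Finset ℤ) : ℕ := ∑ v ∈ S, 2 ^ idx W v

theorem enc_inj {W : ℕ} {S S' : Finset ℤ} (hS : S ⊆ Icc (-(W : ℤ)) W)
    (hS' : S' ⊆ Icc (-(W : ℤ)) W) (h : enc W S = enc W S') : S = S' := by
  have hinj : Set.InjOn (idx W) (Icc (-(W : ℤ)) W : Finset ℤ) := by
    intro a ha b hb hab
    rw [mem_coe, mem_Icc] at ha hb
    unfold idx at hab
    omega
  have e : ∀ S ⊆ Icc (-(W : ℤ)) W, enc W S = ∑ i ∈ S.image (idx W), 2 ^ i := by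
    intro S hS
    rw [sum_image fun a ha b hb => hinj (hS ha) (hS hb)]
    rfl
  rw [e S hS, e S' hS'] at h
  have h2 := Finset.geomSum_injective (n := 2) le_rfl h
  ext v
  constructor
  · intro hv
    have : idx W v ∈ S'.image (idx W) := h2 ▸ mem_image_of_mem _ hv
    obtain ⟨w, hw, hwv⟩ := mem_image.1 this
    rwa [hinj (hS' hw) (hS hv) hwv] at hw
  · intro hv
    have : idx W v ∈ S.image (idx W) := h2.symm ▸ mem_image_of_mem _ hv
    obtain ⟨w, hw, hwv⟩ := mem_image.1 this
    rwa [hinj (hS hw) (hS' hv) hwv] at hw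

theorem sum_enc {W : ℕ} {S : Finset ℤ} (hS : S ⊆ Icc (-(W : ℤ)) W) :
    ∑ v ∈ Icc (-(W : ℤ)) W, (2 : ℝ) ^ idx W v * input v S = (enc W S : ℝ) := by
  unfold enc input
  push_cast
  simp only [mul_ite, mul_one, mul_zero]
  rw [← sum_filter, filter_mem_eq_inter, inter_eq_right.2 hS]

/-- **The upper bound**, for every property of subsets of `[-W, W]`. -/
theorem upper (W t : ℕ) (ht : 2 * W + 2 ≤ 2 ^ t) (Q : Finset ℤ → Prop) :
    ∃ C : NegCircuit 2 (Set.Icc (-(W : ℤ)) W), C.size = 3 * (2 * W + 1) + 3 * t + 2 ∧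
      C.neg.card ≤ t ∧
      ∀ S : Finset ℤ, (∀ a ∈ S, a ∈ Set.Icc (-(W : ℤ)) W) → (C.Accepts S ↔ Q S) := by
  classical
  set L : Finset ℤ := Icc (-(W : ℤ)) W with hL
  have hLU : ∀ v ∈ L, v ∈ Set.Icc (-(W : ℤ)) W := fun v hv => mem_Icc.1 hv
  have hLc : L.card = 2 * W + 1 := by
    rw [hL, Int.card_Icc]
    omega
  set M : ℕ := 2 * W + 1 with hM
  set c : Finset ℤ → ℕ := fun S => (L ∩ S).card with hc
  have hct : ∀ S, c S < 2 ^ t := fun S => by
    have h1 : c S ≤ L.card := card_le_card inter_subset_left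
    omega
  have hidx : ∀ v : ℤ, (0 : ℝ) ≤ if v ∈ L then (2 : ℝ) ^ M - 2 ^ idx W v else 0 := by
    intro v
    split_ifs with hv
    · have h1 : idx W v ≤ M := by
        rw [hL, mem_Icc] at hv
        unfold idx
        omega
      have h2 : (2 : ℝ) ^ idx W v ≤ 2 ^ M := pow_le_pow_right₀ (by norm_num) h1
      linarith
    · exact le_rfl
  have b0 : Bld 2 (Set.Icc (-(W : ℤ)) W) 0 0 ∅ :=
    ⟨fun _ _ => 0, ∅, by simp, fun i hi => absurd hi (by omega), fun i hi => absurd hi (by omega),
      by simp, fun f hf => absurd hf (Set.notMem_empty f)⟩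
  have b1 := b0.sum (fun v => (2 : ℝ) ^ idx W v) (fun v => by positivity) L hLU
  have b2 := b1.sum (fun v => if v ∈ L then (2 : ℝ) ^ M - 2 ^ idx W v else 0) hidx L hLU
  have b3 := b2.sum (fun _ => (1 : ℝ)) (fun _ => zero_le_one) L hLU
  simp only [sum_input] at b3
  have b4 := Bld.digits b3 c (Set.mem_insert _ _) hct t le_rfl
  rw [Nat.sub_self, pow_zero, pow_zero] at b4
  simp only [Nat.mod_one, Nat.cast_zero, sub_zero] at b4
  -- the negative of the code
  have b5 := b4.two (fun x y => x + 2 ^ M * y) (fun x x' y y' hx hy =>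
    add_le_add hx (mul_le_mul_of_nonneg_left hy (by positivity)))
    (Or.inl (Or.inr (Or.inr (Set.mem_insert _ _)))) (Or.inl (Set.mem_insert _ _))
  set Y : ℝ := 2 ^ M * (2 ^ t - 1) with hY
  have b6 := b5.two (fun x y => if ∃ S' ⊆ L, Q S' ∧ (enc W S' : ℝ) ≤ x ∧ Y - enc W S' ≤ y
      then (1 : ℝ) else 0) (fun x x' y y' hx hy => by
    by_cases h : ∃ S' ⊆ L, Q S' ∧ (enc W S' : ℝ) ≤ x ∧ Y - enc W S' ≤ y
    · obtain ⟨S', h1, h2, h3, h4⟩ := h
      rw [if_pos ⟨S', h1, h2, h3, h4⟩, if_pos ⟨S', h1, h2, h3.trans hx, h4.trans hy⟩]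
    · rw [if_neg h]
      split_ifs <;> norm_num)
    (Or.inl (Or.inr (Or.inr (Or.inr (Or.inr (Set.mem_insert _ _))))))
    (Or.inl (Set.mem_insert _ _))
  obtain ⟨g, neg, h1, h2, h3, h4, h5⟩ := b6
  refine ⟨⟨_, g, neg, h2, h3, _, h5 _ (Set.mem_insert _ _)⟩, ?_, ?_, fun S hS => ?_⟩
  · show 0 + L.card + L.card + L.card + 3 * t + 1 + 1 = _
    rw [hLc]
    ring
  · simpa using h1
  · have hSL : S ⊆ L := fun v hv => mem_Icc.2 (hS v hv)
    unfold NegCircuit.Accepts
    dsimp only
    have e1 : ∑ v ∈ L, (2 : ℝ) ^ idx W v * input v S = enc W S := sum_enc hSL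
    have e2 : ∑ v ∈ L, (if v ∈ L then (2 : ℝ) ^ M - 2 ^ idx W v else 0) * input v S +
        2 ^ M * ((2 : ℝ) ^ t - 1 - ((L ∩ S).card : ℝ)) = Y - enc W S := by
      have e3 : ∑ v ∈ L, (if v ∈ L then (2 : ℝ) ^ M - 2 ^ idx W v else 0) * input v S =
          2 ^ M * ((L ∩ S).card : ℝ) - enc W S := by
        rw [← e1, ← sum_input, mul_sum, ← sum_sub_distrib]
        refine sum_congr rfl fun v hv => ?_
        rw [if_pos hv]
        ring
      rw [e3, hY]
      ring
    rw [e1, e2]
    constructor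
    · intro h
      by_contra hQ
      rw [if_neg] at h
      · exact lt_irrefl _ h
      · rintro ⟨S', hS', hQ', k1, k2⟩
        have k3 : (enc W S' : ℝ) = enc W S := by linarith
        have k4 : enc W S' = enc W S := by exact_mod_cast k3
        rw [enc_inj hS' hSL k4] at hQ'
        exact hQ hQ'
    · intro hQ
      rw [if_pos ⟨S, hSL, hQ, le_rfl, le_rfl⟩]
      norm_num

end Pool.Agent.Helper90K9.NG
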